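import Pool.Agent.H67.TG.TBP
import Pool.Agent.H85.TG.DRS
import Pool.Agent.H83.OCG.Time2
import Pool.Agent.H35.K2S.Stab
import Pool.Agent.H54.K2S.Lab
import Pool.Agent.H7.KSAT.SL

/-!
# Two samples of the time: the dead windows are located

`dw F μ K η v` is the probability that the window `v` of the time is dead. On every event `E` of
probability at least `ϖ` and on every interval of windows, two samples of the time are near with a
probability which is in the mean at most `dw / ϖ + η` up to small errors (`time_dom`, `time_int`).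
-/

set_option autoImplicit false

namespace Pool.PC

open Finset Real
open Pool.Agent.H49.Ent Pool.Agent.H32.Dense Pool.STK Pool.KA Pool.KSAT Pool.K2S Pool.OCG

variable {m J : ℕ}

/-- The relative entropy on an event, from the domination. -/
theorem kl_dom {F : Fam m J} {μ : F.Ω → ℕ → ℝ} {e c : ℝ} (hK : F.Ker μ) (hD : F.Dom μ e)
    {κ : Type} (A : F.Ω → κ) (a : κ) (hA : Real.exp (-c) ≤ law F.p A a)
    (hcl : IsLaw (Pool.Agent.H49.Ent.cond F.p A a)) : (F.res A a hcl).kl μ ≤ e + c := by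
  have hp := F.isLaw
  have hpos : 0 < law F.p A a := lt_of_lt_of_le (Real.exp_pos _) hA
  have h1 := cpr_res hp F.T (fun w => (F.l w, F.Z w)) A hpos
  have h2 : Ex (Pool.Agent.H49.Ent.cond F.p A a) (fun ω => -Real.log (μ ω (F.T ω))) ≤
      Ex (Pool.Agent.H49.Ent.cond F.p A a)
        (fun ω => -Real.log (cpr F.p F.T (fun w => (F.l w, F.Z w)) ω)) + e := by
    have e2 : Ex (Pool.Agent.H49.Ent.cond F.p A a)
        (fun ω => -Real.log (cpr F.p F.T (fun w => (F.l w, F.Z w)) ω)) +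
        e = Ex (Pool.Agent.H49.Ent.cond F.p A a) (fun ω =>
          -Real.log (cpr F.p F.T (fun w => (F.l w, F.Z w)) ω) + e) := by
      have b4 := Ex_const hcl.sum_one e
      unfold Ex at b4 ⊢
      simp only [mul_add, Finset.sum_add_distrib] at b4 ⊢
      linarith
    rw [e2]
    refine Ex_mono hcl.nonneg fun ω hω => ?_
    have hω' : 0 < F.p ω := ((cond_pos_iff hp.nonneg A a ω).1 hω).1
    have h3 := hD ω hω'
    have h4 : 0 < cpr F.p F.T (fun w => (F.l w, F.Z w)) ω :=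
      div_pos (law_pos hp.nonneg (fun w => (F.T w, (F.l w, F.Z w))) hω')
        (law_pos hp.nonneg (fun w => (F.l w, F.Z w)) hω')
    have h5 := Real.log_le_log h4 h3
    rw [Real.log_mul (Real.exp_pos _).ne' (hK.pos ω hω').ne', Real.log_exp] at h5
    linarith
  have h3 : -Real.log (law F.p A a) ≤ c := by
    have := Real.log_le_log (Real.exp_pos _) hA
    rw [Real.log_exp] at this
    linarith
  have goal : Ex (Pool.Agent.H49.Ent.cond F.p A a) (fun ω => -Real.log (μ ω (F.T ω))) -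
      CH (Pool.Agent.H49.Ent.cond F.p A a) F.T (fun ω => (F.l ω, F.Z ω)) ≤ e + c := by linarith
  exact goal

/-- The window `v` of the time is dead. -/
def Dd (F : Fam m J) (μ : F.Ω → ℕ → ℝ) (K : ℕ) (η : ℝ) (v : ℕ) (ω : F.Ω) : Prop :=
  v + K ≤ J ∧ η * pm (μ ω) J v (F.T ω) < pn (μ ω) J v K (F.T ω)

/-- The probability that the window `v` of the time is dead. -/
noncomputable def dw (F : Fam m J) (μ : F.Ω → ℕ → ℝ) (K : ℕ) (η : ℝ) (v : ℕ) : ℝ :=
  Pe F.p (Dd F μ K η v)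

theorem dw_nonneg (F : Fam m J) (μ : F.Ω → ℕ → ℝ) (K : ℕ) (η : ℝ) (v : ℕ) :
    0 ≤ dw F μ K η v := Pe_nonneg F.isLaw _

theorem dw_le_one (F : Fam m J) (μ : F.Ω → ℕ → ℝ) (K : ℕ) (η : ℝ) (v : ℕ) :
    dw F μ K η v ≤ 1 := by
  rw [← Pe_univ F.isLaw]
  exact Pe_mono F.isLaw fun _ _ => trivial

/-- The number of the dead windows. -/
theorem sum_dw {F : Fam m J} {μ : F.Ω → ℕ → ℝ} {K : ℕ} {η r n : ℝ} (hL : F.Live μ K η r n)
    {a b : ℕ} (hab : a ≤ b) (hb : b ≤ J) :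
    ∑ v ∈ Ico a b, dw F μ K η v ≤ n + r * ((b : ℝ) - a) := by
  classical
  have h1 : ∑ v ∈ Ico a b, dw F μ K η v =
      Ex F.p (fun ω => (nbad (μ ω) J K η (F.T ω) a b : ℝ)) := by
    unfold dw Ex
    simp_rw [Pe_eq]
    rw [Finset.sum_comm]
    refine Finset.sum_congr rfl fun ω _ => ?_
    unfold nbad
    rw [Finset.card_filter]
    push_cast
    rw [Finset.mul_sum]
    refine Finset.sum_congr rfl fun v _ => ?_
    by_cases h : v + K ≤ J ∧ η * pm (μ ω) J v (F.T ω) < pn (μ ω) J v K (F.T ω)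
    · rw [if_pos h, if_pos (show Dd F μ K η v ω from h), mul_one]
    · rw [if_neg h, if_neg (show ¬ Dd F μ K η v ω from h), mul_zero]
  rw [h1]
  calc Ex F.p (fun ω => (nbad (μ ω) J K η (F.T ω) a b : ℝ)) ≤
      Ex F.p (fun _ => n + r * ((b : ℝ) - a)) :=
        Ex_mono F.isLaw.nonneg fun ω hω => hL ω hω a b hab hb
    _ = _ := Ex_const F.isLaw.sum_one _

/-- The dead windows on an event. -/
theorem dw_res (F : Fam m J) (μ : F.Ω → ℕ → ℝ) (K : ℕ) (η : ℝ) (v : ℕ) (E : F.Ω → Prop)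
    (hcl : IsLaw (Pool.Agent.H49.Ent.cond F.p E True)) (hE : 0 < Pe F.p E) :
    dw (F.res E True hcl) μ K η v ≤ dw F μ K η v / Pe F.p E := by
  classical
  have h1 : dw (F.res E True hcl) μ K η v =
      ∑ ω, if Dd F μ K η v ω then Pool.Agent.H49.Ent.cond F.p E True ω else 0 :=
    Pe_eq (Pool.Agent.H49.Ent.cond F.p E True) (Dd F μ K η v)
  rw [h1]
  unfold dw
  rw [Pe_eq F.p (Dd F μ K η v), Finset.sum_div]
  refine Finset.sum_le_sum fun ω _ => ?_
  have h0 := F.isLaw.nonneg ω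
  split_ifs with h
  · unfold Pool.Agent.H49.Ent.cond
    split_ifs with h2
    · exact le_refl _
    · exact div_nonneg h0 hE.le
  · rw [zero_div]

/-- Conditional laws of labels with the same classes. -/
theorem cond_classes {Ω S S' : Type} [Fintype Ω] {p : Ω → ℝ} {X : Ω → S} {Y : Ω → S'}
    (h : ∀ ω ω', X ω = X ω' ↔ Y ω = Y ω') (ω : Ω) :
    Pool.Agent.H49.Ent.cond p X (X ω) = Pool.Agent.H49.Ent.cond p Y (Y ω) := by
  classical
  have h2 : law p X (X ω) = law p Y (Y ω) := by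
    unfold law
    refine Finset.sum_congr rfl fun ω' _ => ?_
    by_cases h3 : X ω' = X ω
    · rw [if_pos h3, if_pos ((h _ _).1 h3)]
    · rw [if_neg h3, if_neg (fun h4 => h3 ((h _ _).2 h4))]
  funext ω'
  unfold Pool.Agent.H49.Ent.cond
  rw [h2]
  by_cases h3 : X ω' = X ω
  · rw [if_pos h3, if_pos ((h _ _).1 h3)]
  · rw [if_neg h3, if_neg (fun h4 => h3 ((h _ _).2 h4))]

theorem slam_iff (F : Fam m J) (v : ℕ) (ω ω' : F.Ω) :
    slam F v ω = slam F v ω' ↔ TBP.Wv F v ω = TBP.Wv F v ω' := by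
  unfold slam TBP.Wv
  simp only [Prod.mk.injEq]
  tauto

/-- **One window.** -/
theorem near_win {F : Fam m J} {μ : F.Ω → ℕ → ℝ} (hK : F.Ker μ) {v K : ℕ} (hJ : v + K ≤ J)
    {η ρ : ℝ} (hη : 0 ≤ η) (hρ : 0 < ρ) :
    Pool.KAF.Pr (dbl F.p (slam F v)) {x | |(F.T x.1 : ℝ) - F.T x.2| < 2 ^ (J - (v + K))} ≤
      dw F μ K η v + η + (ρ + 1 / ρ * (F.klv μ (v + K) - F.klv μ v)) := by
  classical
  have hp := F.isLaw.nonneg
  obtain ⟨g, hg⟩ : ∃ g : F.Ω → ℝ, g = fun w =>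
    max 0 (1 - TBP.rr F.p (F.T1 (v + K)) (TBP.Wv F v) (TBP.kv F μ v (v + K)) w) := ⟨_, rfl⟩
  rw [Pool.M5T.Pr_dbl]
  have h1 : Ex F.p (fun ω => Pool.KAF.Pr (Pool.Agent.H49.Ent.cond F.p (slam F v) (slam F v ω))
      {ω' | (ω, ω') ∈ {x : F.Ω × F.Ω | |(F.T x.1 : ℝ) - F.T x.2| < 2 ^ (J - (v + K))}}) ≤
      Ex F.p (fun ω => ((if Dd F μ K η v ω then 1 else 0) + η) +
        ∑ w, Pool.Agent.H49.Ent.cond F.p (TBP.Wv F v) (TBP.Wv F v ω) w * g w) := by
    refine Ex_mono hp fun ω hω => ?_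
    rw [cond_classes (slam_iff F v) ω, Pool.KAF.Pr_eq]
    have h2 := TBP.one_win hK hJ (η := η) hω
    have h3 : (∑ ω', if ω' ∈ {ω' | (ω, ω') ∈ {x : F.Ω × F.Ω | |(F.T x.1 : ℝ) - F.T x.2| <
        2 ^ (J - (v + K))}} then
          Pool.Agent.H49.Ent.cond F.p (TBP.Wv F v) (TBP.Wv F v ω) ω' else 0) =
        ∑ w, if |(F.T w : ℝ) - F.T ω| < 2 ^ (J - (v + K)) then
          Pool.Agent.H49.Ent.cond F.p (TBP.Wv F v) (TBP.Wv F v ω) w else 0 := by
      refine Finset.sum_congr rfl fun w _ => ?_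
      have e1 : (w ∈ {ω' | (ω, ω') ∈ {x : F.Ω × F.Ω | |(F.T x.1 : ℝ) - F.T x.2| <
        2 ^ (J - (v + K))}}) ↔ |(F.T w : ℝ) - F.T ω| < 2 ^ (J - (v + K)) := by
        show |(F.T ω : ℝ) - F.T w| < 2 ^ (J - (v + K)) ↔ _
        rw [abs_sub_comm]
      by_cases h4 : |(F.T w : ℝ) - F.T ω| < 2 ^ (J - (v + K))
      · rw [if_pos h4, if_pos (e1.2 h4)]
      · rw [if_neg h4, if_neg (fun h5 => h4 (e1.1 h5))]
    rw [h3]
    refine h2.trans ?_
    rw [hg]
    refine add_le_add_left ?_ _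
    by_cases h4 : η * pm (μ ω) J v (F.T ω) < pn (μ ω) J v K (F.T ω)
    · rw [if_pos h4, if_pos (show Dd F μ K η v ω from ⟨hJ, h4⟩)]
      linarith
    · rw [if_neg h4]
      split_ifs <;> linarith
  refine h1.trans ?_
  have h5 : Ex F.p (fun ω => ((if Dd F μ K η v ω then 1 else 0) + η) +
      ∑ w, Pool.Agent.H49.Ent.cond F.p (TBP.Wv F v) (TBP.Wv F v ω) w * g w) =
      dw F μ K η v + η + Ex F.p g := by
    rw [← TBP.tow hp (TBP.Wv F v) g]
    unfold dw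
    rw [Pe_eq]
    unfold Ex
    simp only [mul_add, Finset.sum_add_distrib, mul_ite, mul_one, mul_zero]
    rw [← Finset.sum_mul, F.isLaw.sum_one, one_mul]
  rw [h5]
  have h6 := TBP.Ex_tv hK hJ hρ
  rw [← hg] at h6
  linarith

/-- **The intervals of windows, on an event.** -/
theorem time_dom {F : Fam m J} {μ : F.Ω → ℕ → ℝ} (hK : F.Ker μ) {e : ℝ} (hD : F.Dom μ e)
    {K : ℕ} {η ρ ϖ : ℝ} (hη : 0 ≤ η) (hρ : 0 < ρ) (hϖ : 0 < ϖ) {E : F.Ω → Prop}
    (hE : ϖ ≤ Pe F.p E) {a b : ℕ} (hab : a ≤ b) (hb : b + K ≤ J) :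
    ∑ v ∈ Ico a b, Pool.KAF.Pr (dbl (Pool.Agent.H49.Ent.cond F.p E True) (slam F v))
        {x | |(F.T x.1 : ℝ) - F.T x.2| < 2 ^ (J - (v + K))} ≤
      (∑ v ∈ Ico a b, dw F μ K η v) / ϖ + η * ((b : ℝ) - a) + ρ * ((b : ℝ) - a) +
        K * (e + Real.log (1 / ϖ)) / ρ := by
  classical
  have hp := F.isLaw.nonneg
  have hPE : 0 < Pe F.p E := hϖ.trans_le hE
  have hcl : IsLaw (Pool.Agent.H49.Ent.cond F.p E True) :=
    ⟨cond_nonneg hp E True, sum_cond F.p E hPE.ne'⟩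
  have hkl : (F.res E True hcl).kl μ ≤ e + Real.log (1 / ϖ) := by
    refine kl_dom hK hD E True ?_ hcl
    rw [← Real.log_inv, one_div, inv_inv, Real.exp_log hϖ]
    exact hE
  have hKr := hK.res E True hcl
  have h1 : ∀ v ∈ Ico a b, Pool.KAF.Pr (dbl (Pool.Agent.H49.Ent.cond F.p E True) (slam F v))
        {x | |(F.T x.1 : ℝ) - F.T x.2| < 2 ^ (J - (v + K))} ≤
      dw F μ K η v / ϖ + η + ρ + 1 / ρ * ((F.res E True hcl).klv μ (v + K) -
        (F.res E True hcl).klv μ v) := by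
    intro v hv
    have hv' := Finset.mem_Ico.1 hv
    have h2 := near_win (F := F.res E True hcl) (μ := μ) hKr (v := v) (K := K) (by omega) hη hρ
    have h3 := dw_res F μ K η v E hcl hPE
    have h4 : dw F μ K η v / Pe F.p E ≤ dw F μ K η v / ϖ :=
      div_le_div_of_nonneg_left (dw_nonneg F μ K η v) hϖ hE
    have h5 : Pool.KAF.Pr (dbl (Pool.Agent.H49.Ent.cond F.p E True) (slam F v))
        {x | |(F.T x.1 : ℝ) - F.T x.2| < 2 ^ (J - (v + K))} ≤
      dw (F.res E True hcl) μ K η v + η + (ρ + 1 / ρ * ((F.res E True hcl).klv μ (v + K) -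
        (F.res E True hcl).klv μ v)) := h2
    linarith
  refine (Finset.sum_le_sum h1).trans ?_
  rw [Finset.sum_add_distrib, Finset.sum_add_distrib, Finset.sum_add_distrib, ← Finset.sum_div,
    Finset.sum_const, Finset.sum_const, Nat.card_Ico, nsmul_eq_mul, nsmul_eq_mul, ← Finset.mul_sum,
    Nat.cast_sub hab]
  have h6 : ∑ v ∈ Ico a b, ((F.res E True hcl).klv μ (v + K) - (F.res E True hcl).klv μ v) ≤
      K * (e + Real.log (1 / ϖ)) := by
    have h7 := TBP.tele (f := (F.res E True hcl).klv μ) (J := J)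
      (fun v v' h1 h2 => hKr.klv_mono h1 h2) (TBP.klv_zero hKr) K
    have h8 : (F.res E True hcl).klv μ J ≤ e + Real.log (1 / ϖ) := by
      rw [Fam.klv_top]
      exact hkl
    have h9 : ∑ v ∈ Ico a b, ((F.res E True hcl).klv μ (v + K) - (F.res E True hcl).klv μ v) ≤
        ∑ v ∈ (range J).filter (fun v => v + K ≤ J),
          ((F.res E True hcl).klv μ (v + K) - (F.res E True hcl).klv μ v) := by
      refine Finset.sum_le_sum_of_subset_of_nonneg ?_ ?_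
      · intro v hv
        rw [Finset.mem_Ico] at hv
        rw [Finset.mem_filter, Finset.mem_range]
        omega
      · intro v hv _
        have := hKr.klv_mono (Nat.le_add_right v K) (Finset.mem_filter.1 hv).2
        linarith
    have h10 : (K : ℝ) * (F.res E True hcl).klv μ J ≤ K * (e + Real.log (1 / ϖ)) :=
      mul_le_mul_of_nonneg_left h8 (Nat.cast_nonneg K)
    linarith
  have h11 : 1 / ρ * ∑ v ∈ Ico a b, ((F.res E True hcl).klv μ (v + K) -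
      (F.res E True hcl).klv μ v) ≤ K * (e + Real.log (1 / ϖ)) / ρ := by
    calc 1 / ρ * ∑ v ∈ Ico a b, ((F.res E True hcl).klv μ (v + K) -
        (F.res E True hcl).klv μ v) ≤ 1 / ρ * (K * (e + Real.log (1 / ϖ))) :=
          mul_le_mul_of_nonneg_left h6 (by positivity)
      _ = K * (e + Real.log (1 / ϖ)) / ρ := by ring
  linarith

/-- **Times with live windows, located**: the dead windows are given once, for all events and all
intervals of windows. -/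
theorem time_int {F : Fam m J} {s : Prop} {K : ℕ} {η r n e : ℝ} (hη : 0 ≤ η)
    (hF : F.TGD s K η r n e) : ∃ D : ℕ → ℝ, (∀ v, 0 ≤ D v ∧ D v ≤ 1) ∧
      (∀ a b : ℕ, a ≤ b → b ≤ J → ∑ v ∈ Ico a b, D v ≤ n + r * ((b : ℝ) - a)) ∧
      ∀ ρ ϖ : ℝ, 0 < ρ → 0 < ϖ → ∀ E : F.Ω → Prop, ϖ ≤ Pe F.p E →
        ∀ a b : ℕ, a ≤ b → b + K ≤ J →
        ∑ v ∈ Ico a b, Pool.KAF.Pr (dbl (Pool.Agent.H49.Ent.cond F.p E True) (slam F v))
            {x | |(F.T x.1 : ℝ) - F.T x.2| < 2 ^ (J - (v + K))} ≤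
          (∑ v ∈ Ico a b, D v) / ϖ + η * ((b : ℝ) - a) + ρ * ((b : ℝ) - a) +
            K * (e + Real.log (1 / ϖ)) / ρ := by
  obtain ⟨μ, hK, -, hL, hD⟩ := hF
  exact ⟨dw F μ K η, fun v => ⟨dw_nonneg F μ K η v, dw_le_one F μ K η v⟩,
    fun a b hab hb => sum_dw hL hab hb, fun ρ ϖ hρ hϖ E hE a b hab hb =>
      time_dom hK hD hη hρ hϖ hE hab hb⟩

/-! ### Near samples in the windows of a window -/

theorem T1_split (F : Fam m J) {w i : ℕ} (h : w + i ≤ J) (ω : F.Ω) :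
    F.T1 (w + i) ω = F.T1 w ω * 2 ^ i + F.T ω % 2 ^ (J - w) / 2 ^ (J - (w + i)) := by
  have e1 : (2 : ℕ) ^ (J - w) = 2 ^ (J - (w + i)) * 2 ^ i := by
    rw [← pow_add]
    congr 1
    omega
  show F.T ω / 2 ^ (J - (w + i)) = F.T ω / 2 ^ (J - w) * 2 ^ i + _
  have h1 := Nat.div_add_mod (F.T ω) (2 ^ (J - w))
  have h2 : F.T ω / 2 ^ (J - (w + i)) = (2 ^ (J - (w + i)) * (F.T ω / 2 ^ (J - w) * 2 ^ i) +
      F.T ω % 2 ^ (J - w)) / 2 ^ (J - (w + i)) := by
    congr 1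
    rw [← h1, e1]
    simp only [Nat.mul_add_mod, Nat.mod_mod]
    rw [Nat.mul_add_div (by positivity), Nat.div_eq_of_lt (Nat.mod_lt _ (by positivity))]
    ring
  rw [h2, Nat.mul_add_div (by positivity)]

theorem tl_wt (F : Fam m J) {w i : ℕ} (h : w + i ≤ J) (ω : F.Ω) :
    tl (F.wt w) i ω = ((F.T ω % 2 ^ (J - w) / 2 ^ (J - (w + i)) : ℕ) : ℤ) := by
  unfold tl Fam.wt
  have e1 : (2 : ℝ) ^ (J - w) = 2 ^ i * 2 ^ (J - (w + i)) := by
    rw [← pow_add]
    congr 1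
    omega
  have e2 : (2 : ℝ) ^ i * (((F.T ω % 2 ^ (J - w) : ℕ) : ℝ) / 2 ^ (J - w)) =
      ((F.T ω % 2 ^ (J - w) : ℕ) : ℝ) / ((2 ^ (J - (w + i)) : ℕ) : ℝ) := by
    rw [e1]
    push_cast
    field_simp
  rw [e2, ← Nat.floor_div_eq_div (K := ℝ), Int.natCast_floor_eq_floor (by positivity)]

/-- The classes of the line, of the window and of the first digits in the window. -/
theorem kp_iff (F : Fam m J) {w i : ℕ} (h : w + i ≤ J) (ω ω' : F.Ω) :
    kp (slam F w) (F.wt w) i ω = kp (slam F w) (F.wt w) i ω' ↔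
      slam F (w + i) ω = slam F (w + i) ω' := by
  have hlt : ∀ ω : F.Ω, F.T ω % 2 ^ (J - w) / 2 ^ (J - (w + i)) < 2 ^ i := by
    intro ω
    rw [Nat.div_lt_iff_lt_mul (by positivity), ← pow_add]
    have e1 : i + (J - (w + i)) = J - w := by omega
    rw [e1]
    exact Nat.mod_lt _ (by positivity)
  have h1 := T1_split F h ω
  have h2 := T1_split F h ω'
  unfold kp slam
  simp only [Prod.mk.injEq]
  rw [tl_wt F h, tl_wt F h, Nat.cast_inj]
  constructor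
  · rintro ⟨⟨a, b, c⟩, d⟩
    refine ⟨a, b, ?_⟩
    rw [h1, h2, c, d]
  · rintro ⟨a, b, c⟩
    rw [h1, h2] at c
    have h3 : F.T1 w ω = F.T1 w ω' := by
      have e1 := congrArg (fun x => x / 2 ^ i) c
      beta_reduce at e1
      rw [Nat.add_comm, Nat.add_mul_div_right _ _ (by positivity), Nat.div_eq_of_lt (hlt ω),
        Nat.zero_add, Nat.add_comm, Nat.add_mul_div_right _ _ (by positivity),
        Nat.div_eq_of_lt (hlt ω'), Nat.zero_add] at e1
      exact e1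
    refine ⟨⟨a, b, h3⟩, ?_⟩
    rw [h3] at c
    exact Nat.add_left_cancel c

/-- The differences of the times in one window. -/
theorem wt_sub (F : Fam m J) {w : ℕ} {ω ω' : F.Ω} (h : F.T1 w ω = F.T1 w ω') :
    (F.T ω : ℝ) - F.T ω' = 2 ^ (J - w) * (F.wt w ω - F.wt w ω') := by
  have key : ∀ ω : F.Ω, (F.T ω : ℝ) = 2 ^ (J - w) * (F.T1 w ω : ℝ) + 2 ^ (J - w) * F.wt w ω := by
    intro ω
    have h1 := Nat.div_add_mod (F.T ω) (2 ^ (J - w))
    have h2 : 2 ^ (J - w) * F.T1 w ω + F.T ω % 2 ^ (J - w) = F.T ω := h1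
    have h3 : (2 : ℝ) ^ (J - w) * F.wt w ω = ((F.T ω % 2 ^ (J - w) : ℕ) : ℝ) := by
      unfold Fam.wt
      field_simp
    rw [h3]
    exact_mod_cast h2.symm
  rw [key ω, key ω', h]
  ring

/-- **(2')** The near samples of the scale `i` in the window `w` are those of the window
`w + i`. -/
theorem nr_slam (F : Fam m J) {p : F.Ω → ℝ} (hp : ∀ ω, 0 ≤ p ω) {w i K : ℕ}
    (h : w + i + K ≤ J) : nr p (slam F w) (F.wt w) K i =
      Pool.KAF.Pr (dbl p (slam F (w + i)))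
        {x | |(F.T x.1 : ℝ) - F.T x.2| < 2 ^ (J - (w + i + K))} := by
  unfold nr
  rw [dbl_congr (kp_iff F (show w + i ≤ J by omega))]
  have key : ∀ x : F.Ω × F.Ω, 0 < dbl p (slam F (w + i)) x →
      (|F.wt w x.2 - F.wt w x.1| < (2 : ℝ) ^ (-((i : ℤ) + K)) ↔
        |(F.T x.1 : ℝ) - F.T x.2| < 2 ^ (J - (w + i + K))) := by
    intro x hx
    have h1 : slam F (w + i) x.1 = slam F (w + i) x.2 := ((glue_pos_iff hp hp x).1 hx).2.2
    have h2 : F.T1 w x.1 = F.T1 w x.2 := by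
      have h3 := (kp_iff F (show w + i ≤ J by omega) x.1 x.2).2 h1
      exact (Prod.ext_iff.1 (Prod.ext_iff.1 (Prod.ext_iff.1 h3).1).2).2
    rw [wt_sub F h2, abs_mul, abs_of_pos (by positivity : (0 : ℝ) < 2 ^ (J - w)),
      abs_sub_comm (F.wt w x.1)]
    have e1 : (2 : ℝ) ^ (J - (w + i + K)) = 2 ^ (J - w) * (2 : ℝ) ^ (-((i : ℤ) + K)) := by
      have e2 : (2 : ℝ) ^ (-((i : ℤ) + K)) = ((2 : ℝ) ^ (i + K))⁻¹ := by
        rw [zpow_neg]
        congr 1
      have e3 : (2 : ℝ) ^ (J - w) = 2 ^ (J - (w + i + K)) * 2 ^ (i + K) := by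
        rw [← pow_add]
        congr 1
        omega
      rw [e2, e3]
      field_simp
    rw [e1]
    exact (mul_lt_mul_iff_right₀ (by positivity)).symm
  refine le_antisymm ?_ ?_
  · exact Pr_mono' (fun x => glue_nonneg hp hp x) fun x hx hE => (key x hx).1 hE
  · exact Pr_mono' (fun x => glue_nonneg hp hp x) fun x hx hE => (key x hx).2 hE

/-! ### The truncated time -/

/-- The time is replaced by its first `R` digits. -/
def cut (F : Fam m J) (R : ℕ) : Fam m J where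
  Ω := F.Ω
  ζ := F.ζ
  fin := F.fin
  p := F.p
  u := F.u
  d := F.d
  T := fun ω => F.T ω / 2 ^ (J - R) * 2 ^ (J - R)
  Z := F.Z
  isLaw := F.isLaw
  dir := F.dir
  tim := fun ω => (Nat.div_mul_le_self _ _).trans_lt (F.tim ω)

theorem cut_T1 (F : Fam m J) {R v : ℕ} (hv : v ≤ R) (ω : F.Ω) : (cut F R).T1 v ω = F.T1 v ω := by
  show F.T ω / 2 ^ (J - R) * 2 ^ (J - R) / 2 ^ (J - v) = F.T ω / 2 ^ (J - v)
  have e1 : (2 : ℕ) ^ (J - v) = 2 ^ (J - R) * 2 ^ (J - v - (J - R)) := by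
    rw [← pow_add]
    congr 1
    omega
  rw [e1, ← Nat.div_div_eq_div_mul, Nat.mul_div_cancel _ (by positivity),
    Nat.div_div_eq_div_mul]

theorem cut_slam (F : Fam m J) {R v : ℕ} (hv : v ≤ R) : slam (cut F R) v = slam F v := by
  funext ω
  unfold slam
  rw [cut_T1 F hv]
  rfl

theorem cut_near (F : Fam m J) {R k : ℕ} (hk : k + 1 ≤ R) (hR : R ≤ J) {ω ω' : F.Ω}
    (h : |((cut F R).T ω : ℝ) - (cut F R).T ω'| < 2 ^ (J - (k + 1))) :
    |(F.T ω : ℝ) - F.T ω'| < 2 ^ (J - k) := by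
  have key : ∀ ω : F.Ω, ((cut F R).T ω : ℝ) ≤ F.T ω ∧ (F.T ω : ℝ) < (cut F R).T ω + 2 ^ (J - R) := by
    intro ω
    have h1 : (cut F R).T ω ≤ F.T ω := Nat.div_mul_le_self _ _
    have h2 : F.T ω < (cut F R).T ω + 2 ^ (J - R) := by
      have h3 := Nat.div_add_mod (F.T ω) (2 ^ (J - R))
      have h4 := Nat.mod_lt (F.T ω) (show 0 < 2 ^ (J - R) by positivity)
      have h5 : (cut F R).T ω = 2 ^ (J - R) * (F.T ω / 2 ^ (J - R)) := by
        rw [mul_comm]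
        rfl
      omega
    exact ⟨by exact_mod_cast h1, by exact_mod_cast h2⟩
  have h1 : (2 : ℝ) ^ (J - R) ≤ 2 ^ (J - (k + 1)) :=
    pow_le_pow_right₀ (by norm_num) (by omega)
  have h2 : (2 : ℝ) ^ (J - k) = 2 * 2 ^ (J - (k + 1)) := by
    rw [← pow_succ']
    congr 1
    omega
  have h3 := key ω
  have h4 := key ω'
  rw [abs_lt] at h ⊢
  rw [h2]
  constructor <;> linarith

/-- **(2'')** Near samples of the truncated time. -/
theorem nr_cut (F : Fam m J) {p : F.Ω → ℝ} (hp : ∀ ω, 0 ≤ p ω) {w i K R : ℕ}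
    (h : w + i + K + 1 ≤ R) (hR : R ≤ J) :
    nr p (slam (cut F R) w) ((cut F R).wt w) (K + 1) i ≤
      Pool.KAF.Pr (dbl p (slam F (w + i)))
        {x | |(F.T x.1 : ℝ) - F.T x.2| < 2 ^ (J - (w + i + K))} := by
  have h1 := nr_slam (cut F R) (p := p) hp (w := w) (i := i) (K := K + 1) (by omega)
  rw [cut_slam F (show w + i ≤ R by omega)] at h1
  refine h1.le.trans ?_
  refine Pr_mono' (fun x => glue_nonneg hp hp x) fun x _ hE => ?_
  exact cut_near F (k := w + i + K) (by omega) hR hE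

/-- The windows of an interval. -/
theorem sum_shift (f : ℕ → ℝ) (w X : ℕ) :
    ∑ i ∈ range X, f (w + i) = ∑ v ∈ Ico w (w + X), f v := by
  rw [Finset.sum_Ico_eq_sum_range, Nat.add_sub_cancel_left]

/-- **(TIME)** For the sum of the near samples of the scales `i < X` in the window `w`, for the time
and for the truncated time; the dead windows are given once. -/
theorem time_nr {F : Fam m J} {s : Prop} {K : ℕ} {η r n e : ℝ} (hη : 0 ≤ η)
    (hF : F.TGD s K η r n e) : ∃ D : ℕ → ℝ, (∀ v, 0 ≤ D v ∧ D v ≤ 1) ∧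
      (∀ a b : ℕ, a ≤ b → b ≤ J → ∑ v ∈ Ico a b, D v ≤ n + r * ((b : ℝ) - a)) ∧
      (∀ ρ ϖ : ℝ, 0 < ρ → 0 < ϖ → ∀ E : F.Ω → Prop, ϖ ≤ Pe F.p E →
        ∀ w X : ℕ, w + X + K ≤ J →
        ∑ i ∈ range X, nr (Pool.Agent.H49.Ent.cond F.p E True) (slam F w) (F.wt w) K i ≤
          (∑ v ∈ Ico w (w + X), D v) / ϖ + (η + ρ) * X + K * (e + Real.log (1 / ϖ)) / ρ) ∧
      (∀ ρ ϖ : ℝ, 0 < ρ → 0 < ϖ → ∀ E : F.Ω → Prop, ϖ ≤ Pe F.p E →
        ∀ w X R : ℕ, w + X + K + 1 ≤ R → R ≤ J →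
        ∑ i ∈ range X, nr (Pool.Agent.H49.Ent.cond F.p E True) (slam (cut F R) w)
            ((cut F R).wt w) (K + 1) i ≤
          (∑ v ∈ Ico w (w + X), D v) / ϖ + (η + ρ) * X + K * (e + Real.log (1 / ϖ)) / ρ) := by
  obtain ⟨D, h1, h2, h3⟩ := time_int hη hF
  have key : ∀ ρ ϖ : ℝ, 0 < ρ → 0 < ϖ → ∀ E : F.Ω → Prop, ϖ ≤ Pe F.p E →
      ∀ w X : ℕ, w + X + K ≤ J → ∀ g : ℕ → ℝ,
      (∀ i < X, g i ≤ Pool.KAF.Pr (dbl (Pool.Agent.H49.Ent.cond F.p E True) (slam F (w + i)))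
        {x | |(F.T x.1 : ℝ) - F.T x.2| < 2 ^ (J - (w + i + K))}) →
      ∑ i ∈ range X, g i ≤
        (∑ v ∈ Ico w (w + X), D v) / ϖ + (η + ρ) * X + K * (e + Real.log (1 / ϖ)) / ρ := by
    intro ρ ϖ hρ hϖ E hE w X hX g hg
    have h4 := h3 ρ ϖ hρ hϖ E hE w (w + X) (Nat.le_add_right w X) hX
    have h5 : ∑ i ∈ range X, g i ≤ ∑ i ∈ range X,
        Pool.KAF.Pr (dbl (Pool.Agent.H49.Ent.cond F.p E True) (slam F (w + i)))
          {x | |(F.T x.1 : ℝ) - F.T x.2| < 2 ^ (J - (w + i + K))} :=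
      Finset.sum_le_sum fun i hi => hg i (Finset.mem_range.1 hi)
    rw [sum_shift (fun v => Pool.KAF.Pr (dbl (Pool.Agent.H49.Ent.cond F.p E True) (slam F v))
      {x | |(F.T x.1 : ℝ) - F.T x.2| < 2 ^ (J - (v + K))})] at h5
    push_cast at h4
    have e1 : ((w : ℝ) + X) - w = X := by ring
    rw [e1] at h4
    linarith
  have hc : ∀ E : F.Ω → Prop, ∀ ω, 0 ≤ Pool.Agent.H49.Ent.cond F.p E True ω := fun E =>
    cond_nonneg F.isLaw.nonneg E True
  refine ⟨D, h1, h2, fun ρ ϖ hρ hϖ E hE w X hX => ?_, fun ρ ϖ hρ hϖ E hE w X R hX hR => ?_⟩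
  · exact key ρ ϖ hρ hϖ E hE w X hX _ fun i hi => (nr_slam F (hc E) (by omega)).le
  · exact key ρ ϖ hρ hϖ E hE w X (by omega) _ fun i hi => nr_cut F (hc E) (by omega) hR

/-- The arithmetic of **(TIME)**: if the dead windows are few, then the sum is at most `εN X`. -/
theorem tim_arith {S ϖ η ρ εN X A : ℝ} (hϖ : 0 < ϖ) (hX : 0 ≤ X) (hS : S ≤ ϖ * (εN / 2 * X))
    (hη : η + ρ ≤ εN / 4) (hA : A ≤ εN / 4 * X) : S / ϖ + (η + ρ) * X + A ≤ εN * X := by
  have h1 : S / ϖ ≤ εN / 2 * X := by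
    rw [div_le_iff₀ hϖ]
    linarith
  have h2 := mul_le_mul_of_nonneg_right hη hX
  linarith

end Pool.PC
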