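import Pool.Agent.H40.PC.Row1
import Pool.Agent.H92.PC.Cel

/-!
# Plan C: the rows of one coordinate for one level of the class

`rowS : RowSStmt`: outside few pairs `(w, q)` the rows of the base coordinate are full.
-/

set_option autoImplicit false

namespace Pool.PC

open Finset Real
open Pool.Agent.H49.Ent Pool.Agent.H32.Dense Pool.STK Pool.KA Pool.KSAT Pool.K2S Pool.UEG
open Pool.S6U Pool.OCG

/-- The frame is below the cap. -/
theorem vpc_cap {c : Nm} {cap h : ℝ} {n J : ℕ} (w : ℕ) :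
    (vpc c cap h n J w : ℝ) ≤ max 0 ((cap - 2 * h) * J) := by
  rw [vpc_eq]
  rcases le_total 0 ((min (c.rot ((mix 0 (1 / (n : ℝ)) J w : ℕ) / n)) cap - 2 * h) * J)
    with h2 | h2
  · refine (Nat.floor_le h2).trans (le_max_of_le_right ?_)
    refine mul_le_mul_of_nonneg_right ?_ (Nat.cast_nonneg J)
    have := min_le_right (c.rot ((mix 0 (1 / (n : ℝ)) J w : ℕ) / n)) cap
    linarith
  · rw [Nat.floor_of_nonpos h2]
    exact le_max_of_le_left (by simp)

/-- **The rows of one coordinate for one level of the class.** -/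
theorem rowS : RowSStmt := by
  classical
  intro ε ca ρ hε hca hρ
  have hu0 : 0 < Real.log 2 := Real.log_pos (by norm_num)
  obtain ⟨ϖ, κ₀, εN, hϖ, hϖ1, hκ₀, hκ₀1, hεN, hB⟩ :=
    row_cell (ε / Real.log 2) (ca / 2) ρ (by positivity) (by positivity) hρ
  refine ⟨ϖ, εN, κ₀, hϖ, hϖ1, hεN, hκ₀, hκ₀1, ?_⟩
  intro k'
  obtain ⟨γ, X₀, hγ, hγ1, hX₀, hB⟩ := hB k' 2 (by norm_num)
  refine ⟨γ, hγ, hγ1, ?_⟩
  intro c δ x ξ hc hx hxc hξ
  obtain ⟨n₀, hn₀, hA⟩ := Pool.WF.ctt_lvl ca (κ₀ * ξ) hca (by positivity)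
  refine ⟨n₀, hn₀, ?_⟩
  intro n hn
  obtain ⟨h₁, J₁, hh₁, hA⟩ := hA n hn
  refine ⟨min h₁ (min ϖ (x / 4)), lt_min hh₁ (lt_min hϖ (by positivity)), ?_⟩
  intro h hh hhh
  have hh1 : h ≤ h₁ := hhh.trans (min_le_left _ _)
  have hh2 : h ≤ ϖ := hhh.trans ((min_le_right _ _).trans (min_le_left _ _))
  have hh3 : h ≤ x / 4 := hhh.trans ((min_le_right _ _).trans (min_le_right _ _))
  obtain ⟨N₁, hN₁⟩ := exists_nat_ge ((k' : ℝ) / ρ)
  obtain ⟨N₂, hN₂⟩ := exists_nat_ge ((X₀ : ℝ) / ξ)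
  refine ⟨max J₁ (max N₁ N₂), ?_⟩
  intro J hJ F B k hBk hL a hLev ya yb hya hyb hG X qa qb hX1 hX2 hqa hqb hXq T hT hTg
  have hJ1 : J₁ ≤ J := (le_max_left _ _).trans hJ
  have hJ2 : N₁ ≤ J := (le_max_left _ _).trans ((le_max_right _ _).trans hJ)
  have hJ3 : N₂ ≤ J := (le_max_right _ _).trans ((le_max_right _ _).trans hJ)
  have hJ0 : (0 : ℝ) ≤ J := Nat.cast_nonneg J
  have hkJ : (k' : ℝ) ≤ ρ * J := by
    have h1 : (N₁ : ℝ) ≤ J := by exact_mod_cast hJ2
    have h2 := hN₁.trans h1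
    rw [div_le_iff₀ hρ] at h2
    linarith
  have hXX : X₀ ≤ X := by
    have h1 : (N₂ : ℝ) ≤ J := by exact_mod_cast hJ3
    have h2 := hN₂.trans h1
    rw [div_le_iff₀ hξ] at h2
    have h3 : (X₀ : ℝ) ≤ X := by linarith
    exact_mod_cast h3
  have hX0 : 1 ≤ X := hX₀.trans hXX
  have hXr : (1 : ℝ) ≤ X := by exact_mod_cast hX0
  obtain ⟨hq1, hq2⟩ := abs_le.1 hL.hq
  obtain ⟨hn1, hn2⟩ := abs_le.1 hL.hn
  have hyJ : yb * J ≤ x / 2 * J := mul_le_mul_of_nonneg_right hyb hJ0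
  have hhJ : h * J ≤ x / 4 * J := mul_le_mul_of_nonneg_right hh3 hJ0
  have hxJ : x * J ≤ (c.n - c.q) * J := mul_le_mul_of_nonneg_right hxc.le hJ0
  have hnJ : c.n * J ≤ 1 * J := mul_le_mul_of_nonneg_right hc.n1 hJ0
  have hhJ0 : 0 ≤ h * J := mul_nonneg hh.le hJ0
  have hyb1 : yb ≤ 1 := by linarith [hc.n1, hc.q0]
  have hqJ : ((B k).q : ℝ) + yb * J ≤ J := by linarith
  -- the rows
  obtain ⟨B₁, hB1, hB2, hB3⟩ := hB F (B k).i0 0 J 0 J qa qb X (vpc c (cpx c x) h n J)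
    (fun w => zv (B k).i0 (a w)) (zv (B k).i0 (B k).a)
    (hLev.frs (fun w => vpc_J hc hh.le w)) le_rfl le_rfl hXX (by rw [Nat.sub_zero]; exact hX2)
    hXq
  rw [Nat.sub_zero] at hB2
  obtain ⟨Q, hQ⟩ : ∃ Q : ℝ, Q = (qb - qa : ℕ) := ⟨_, rfl⟩
  have hQ0 : 0 ≤ Q := by rw [hQ]; exact Nat.cast_nonneg _
  refine ⟨B₁ ∪ ((T ×ˢ Finset.Ico qa qb) ∪
    (Finset.Ico (J + 1 - X - k') (J + 1 - X) ×ˢ Finset.Ico qa qb)), ?_, ?_⟩
  · have c1 : ((T ×ˢ Finset.Ico qa qb).card : ℝ) ≤ ρ * J * Q := by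
      rw [Finset.card_product, Nat.card_Ico]
      push_cast
      rw [← hQ]
      exact mul_le_mul_of_nonneg_right hT hQ0
    have c2 : ((Finset.Ico (J + 1 - X - k') (J + 1 - X) ×ˢ Finset.Ico qa qb).card : ℝ) ≤
        ρ * J * Q := by
      rw [Finset.card_product, Nat.card_Ico, Nat.card_Ico]
      push_cast
      rw [← hQ]
      refine mul_le_mul_of_nonneg_right ?_ hQ0
      have h1 : ((J + 1 - X - (J + 1 - X - k') : ℕ) : ℝ) ≤ k' := by
        have : J + 1 - X - (J + 1 - X - k') ≤ k' := by omega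
        exact_mod_cast this
      exact h1.trans hkJ
    have c3 : ((B₁ ∪ ((T ×ˢ Finset.Ico qa qb) ∪
        (Finset.Ico (J + 1 - X - k') (J + 1 - X) ×ˢ Finset.Ico qa qb))).card : ℝ) ≤
        B₁.card + ((T ×ˢ Finset.Ico qa qb).card +
          (Finset.Ico (J + 1 - X - k') (J + 1 - X) ×ˢ Finset.Ico qa qb).card) := by
      exact_mod_cast (Finset.card_union_le _ _).trans
        (Nat.add_le_add_left (Finset.card_union_le _ _) _)
    rw [← hQ] at hB2 ⊢
    have c4 : 0 ≤ ρ * J * Q := by positivity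
    linarith
  intro w q hw hq1' hq2' hwq hqw
  have n1 : (w, q) ∉ B₁ := fun hh => hwq (Finset.mem_union_left _ hh)
  have n2 : w ∉ T := fun hh => hwq (Finset.mem_union_right _ (Finset.mem_union_left _
    (Finset.mem_product.2 ⟨hh, Finset.mem_Ico.2 ⟨hq1', hq2'⟩⟩)))
  have n3 : w + X + k' ≤ J := by
    by_contra hcon
    exact hwq (Finset.mem_union_right _ (Finset.mem_union_right _
      (Finset.mem_product.2 ⟨Finset.mem_Ico.2 ⟨by show J + 1 - X - k' ≤ w; omega,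
        by show w < J + 1 - X; omega⟩, Finset.mem_Ico.2 ⟨hq1', hq2'⟩⟩)))
  obtain ⟨-, key⟩ := hB3 w q (Nat.zero_le _) (by omega) hq1' hq2' n1
  have key := key hqw J n3 le_rfl (by
    have h1 := hTg w n2 J n3 le_rfl (fun _ => True) (by rw [Pe_true F.isLaw]; exact hϖ1)
    rwa [cond_true F.isLaw] at h1) (by
    intro X' hX'1 hX'2 E hE
    have hX'J : κ₀ * ξ * J ≤ X' := by
      refine le_trans ?_ hX'1
      rw [mul_assoc]
      exact mul_le_mul_of_nonneg_left hX1 hκ₀.le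
    have hqr : (q : ℝ) ≤ qb := by exact_mod_cast hq2'.le
    have hqar : (qa : ℝ) ≤ q := by exact_mod_cast hq1'
    have hX'r : (X' : ℝ) ≤ X := by exact_mod_cast hX'2
    have hqv : q + vpc c (cpx c x) h n J w ≤ (B k).n := by
      have h1 := vpc_cap (c := c) (cap := cpx c x) (h := h) (n := n) (J := J) w
      have h2 : ((q + vpc c (cpx c x) h n J w : ℕ) : ℝ) ≤ (B k).n := by
        push_cast
        rcases le_total 0 ((cpx c x - 2 * h) * J) with h3 | h3
        · rw [max_eq_right h3] at h1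
          have e : (cpx c x - 2 * h) * J = c.n * J - c.q * J - x * J - 2 * (h * J) := by
            unfold cpx
            ring
          rw [e] at h1
          have hx0 : 0 ≤ x * J := by positivity
          linarith
        · rw [max_eq_left h3] at h1
          linarith
      exact_mod_cast h2
    exact hA J F c h ya yb B k hJ1 hh1 hya hyb1 hL hBk hqJ hG w q
      (vpc c (cpx c x) h n J w) X' (zv (B k).i0 (a w)) hX'J (by linarith)
      (by push_cast; linarith) hw hqv (hLev.zgrid (B k).i0 w) (by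
        intro ω hω
        rw [zv_ne (oth_ne _)]
        refine (hLev.near w (Nat.zero_le _) hw ω hω).trans ?_
        exact div_le_div_of_nonneg_right (by norm_num) (by positivity)) E (hh2.trans hE)
      (hϖ.trans_le hE))
  have e1 : ε / Real.log 2 * X * Real.log 2 = ε * X := by field_simp
  rw [e1] at key
  exact key

end Pool.PC
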