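import Pool.Agent.H78.PC.Wf
import Pool.Agent.H70.PC.NestT
import Pool.Agent.H59.PC.TM
import Pool.Agent.H92.PC.Theta
import Pool.Agent.H83.PC.Sin
import Pool.Agent.H40.PC.Time

/-!
# Full rows of one coordinate on a rectangle of contexts

`c w q` is a context of the window `w` and of the velocity scale `q`. Outside few pairs `(w, q)`
the row of the coordinate `i0` after the window, `X` digits, is full in the context `c w q`, if the
time is live in the window and the velocity is active at the pair.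
-/

set_option autoImplicit false

namespace Pool.PC

open Finset Real
open Pool.Agent.H49.Ent Pool.Agent.H32.Dense Pool.STK Pool.KA Pool.KSAT Pool.K2S Pool.OCG
  Pool.S6U

variable {m J : ℕ}

/-- The covector of the coordinate `i0`. -/
def cvc (i0 : Fin m) : Fin m → ℝ := fun j => if j = i0 then 1 else 0

theorem lc_cvc (k : ℕ) (i0 : Fin m) (x : Fin m → ℝ) :
    Pool.WF.lc k (cvc i0) x = ⌊(2 : ℝ) ^ k * x i0⌋ := by
  unfold Pool.WF.lc cvc
  simp

/-- **The contexts of a rectangle**: `c w q` knows the window, the cells of the coordinate `i0` of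
the position (`q + w` digits) and of the velocity (`q` digits); it is a function of the line and of
the window; nested in `q`, and in `w` up to `K`. -/
structure Rcx (F : Fam m J) (p : F.Ω → ℝ) (i0 : Fin m) (wa wb : ℕ) {Γ : Type}
    (c : ℕ → ℕ → F.Ω → Γ) (K : ℝ) : Prop where
  tw : ∀ w q, wa ≤ w → w ≤ wb → Det p (c w q) (F.T1 w)
  ps : ∀ w q, wa ≤ w → w ≤ wb → q + w ≤ J → Det p (c w q) (bps F w (q + w) i0)
  vl : ∀ w q, wa ≤ w → w ≤ wb → Det p (c w q) (fun ω => ⌊(2 : ℝ) ^ q * F.d ω i0⌋)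
  det : ∀ w q, wa ≤ w → w ≤ wb → Det p (slam F w) (c w q)
  mq : ∀ w q q', wa ≤ w → w ≤ wb → q ≤ q' → Det p (c w q') (c w q)
  mw : ∀ w w' q, wa ≤ w → w ≤ w' → w' ≤ wb → CH p (c w q) (c w' q) ≤ K

section rect

variable {F : Fam m J} {p : F.Ω → ℝ} {i0 : Fin m} {wa wb X : ℕ} {Γ : Type}
  {c : ℕ → ℕ → F.Ω → Γ} {K : ℝ}

section defs

variable (F p i0 X c)

/-- The dependence of the time of the window on the line. -/
noncomputable def ra (w q : ℕ) : ℝ :=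
  dp p (F.T1 (w + X)) (fun ω => (Pool.WF.lc (q + w + X) (cvc i0) (F.x1 w ω),
    Pool.WF.lc (q + X) (cvc i0) (F.d ω))) (c w q)

/-- The dependence of the row on the velocity. -/
noncomputable def rb (w q : ℕ) : ℝ :=
  dp p (fun ω => Pool.WF.lc (q + w + X) (cvc i0) (F.x1 (w + X) ω))
    (fun ω => Pool.WF.lc (q + X) (cvc i0) (F.d ω)) (fun ω => (c w q ω, F.T1 (w + X) ω))

end defs

theorem ra_nonneg (hp : IsLaw p) (w q : ℕ) : 0 ≤ ra F p i0 X c w q := dp_nonneg hp.nonneg _ _ _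

theorem rb_nonneg (hp : IsLaw p) (w q : ℕ) : 0 ≤ rb F p i0 X c w q := dp_nonneg hp.nonneg _ _ _

/-- **(a)** on a separated set of velocity scales. -/
theorem ra_sep (hp : IsLaw p) (h : Rcx F p i0 wa wb c K) {w : ℕ} (hw : wa ≤ w) (hw' : w ≤ wb)
    (S : Finset ℕ) (hS : ∀ q ∈ S, q + (w + X) ≤ J) (hne : S.Nonempty)
    (hsep : ∀ x ∈ S, ∀ y ∈ S, x < y → x + X ≤ y) :
    ∑ q ∈ S, ra F p i0 X c w q ≤ X * Real.log 2 + 0 * S.card := by
  obtain ⟨q, g1, g2, g3⟩ := H23.enum_asc X S hne hsep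
  rw [← g3 (fun q => ra F p i0 X c w q)]
  have key := tele hp S.card (fun _ => F.T1 (w + X))
    (fun j ω => (Pool.WF.lc (q j + w + X) (cvc i0) (F.x1 w ω),
      Pool.WF.lc (q j + X) (cvc i0) (F.d ω))) (fun j => c w (q j)) (c₁ := 0) (c₂ := 0) le_rfl
    le_rfl
    (fun j hj => by
      refine (CH_eq_zero hp.nonneg ?_).le
      intro ω ω' hω hω' e
      have h2 := g2 j hj
      have e1 := h.ps w (q (j + 1)) hw hw' (by have := hS _ (g1 (j + 1)); omega) ω ω' hω hω' e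
      have e2 := h.vl w (q (j + 1)) hw hw' ω ω' hω hω' e
      have e3 := h.mq w (q j) (q (j + 1)) hw hw' (by omega) ω ω' hω hω' e
      refine Prod.ext (Prod.ext ?_ ?_) e3
      · show Pool.WF.lc (q j + w + X) (cvc i0) (F.x1 w ω) =
          Pool.WF.lc (q j + w + X) (cvc i0) (F.x1 w ω')
        rw [lc_cvc, lc_cvc]
        exact floor_down (by omega) e1
      · show Pool.WF.lc (q j + X) (cvc i0) (F.d ω) = Pool.WF.lc (q j + X) (cvc i0) (F.d ω')
        rw [lc_cvc, lc_cvc]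
        exact floor_down (by omega) e2)
    (fun j _ => by
      refine (CH_eq_zero hp.nonneg ?_).le
      intro ω ω' _ _ e
      exact (Prod.ext_iff.mp e).1)
  have hJ : w + X ≤ J := by have := hS _ (g1 0); omega
  have k2 : CH p (F.T1 (w + X)) (c w (q 0)) ≤ X * Real.log 2 := by
    have k3 := CH_T1 hp (Nat.le_add_right w X) hJ (h.tw w (q 0) hw hw')
    refine k3.trans (le_of_eq ?_)
    push_cast
    ring
  refine key.trans ?_
  linarith

/-- **(b)** on a separated set of windows. -/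
theorem rb_sep (hp : IsLaw p) (h : Rcx F p i0 wa wb c K) (hK : 0 ≤ K) (q : ℕ)
    (S : Finset ℕ) (hS : ∀ w ∈ S, wa ≤ w ∧ w ≤ wb ∧ q + (w + X) ≤ J) (hne : S.Nonempty)
    (hsep : ∀ x ∈ S, ∀ y ∈ S, x < y → x + X ≤ y) :
    ∑ w ∈ S, rb F p i0 X c w q ≤ X * Real.log 2 + (K + Real.log 7) * S.card := by
  have h0 := hp.nonneg
  have hl7 : 0 ≤ Real.log 7 := Real.log_nonneg (by norm_num)
  obtain ⟨w, g1, g2, g3⟩ := H23.enum_asc X S hne hsep
  rw [← g3 (fun w => rb F p i0 X c w q)]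
  have key := tele hp S.card (fun _ ω => Pool.WF.lc (q + X) (cvc i0) (F.d ω))
    (fun j ω => Pool.WF.lc (q + w j + X) (cvc i0) (F.x1 (w j + X) ω))
    (fun j ω => (c (w j) q ω, F.T1 (w j + X) ω)) (c₁ := K + Real.log 7) (c₂ := 0)
    (by positivity) le_rfl
    (fun j hj => by
      obtain ⟨a1, a2, a3⟩ := hS _ (g1 j)
      obtain ⟨b1, b2, b3⟩ := hS _ (g1 (j + 1))
      have h2 := g2 j hj
      have f1 := CH_chain h0 (fun ω => Pool.WF.lc (q + w j + X) (cvc i0) (F.x1 (w j + X) ω))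
        (fun ω => (c (w j) q ω, F.T1 (w j + X) ω))
        (fun ω => (c (w (j + 1)) q ω, F.T1 (w (j + 1) + X) ω))
      have f2 : CH p (fun ω => (c (w j) q ω, F.T1 (w j + X) ω))
          (fun ω => (c (w (j + 1)) q ω, F.T1 (w (j + 1) + X) ω)) ≤ K := by
        have k1 := h.mw (w j) (w (j + 1)) q a1 (by omega) b2
        have k2 : CH p (c (w j) q) (fun ω => (c (w (j + 1)) q ω, F.T1 (w (j + 1) + X) ω)) ≤
            CH p (c (w j) q) (c (w (j + 1)) q) :=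
          CH_mono_cond h0 fun ω ω' _ _ e => (Prod.ext_iff.mp e).1
        have k3 : CH p (fun ω => (c (w j) q ω, F.T1 (w j + X) ω))
            (fun ω => (c (w (j + 1)) q ω, F.T1 (w (j + 1) + X) ω)) ≤
            CH p (c (w j) q) (fun ω => (c (w (j + 1)) q ω, F.T1 (w (j + 1) + X) ω)) := by
          refine CH_mono_left h0 ?_
          intro ω ω' hω hω' e
          have e1 := Prod.ext_iff.mp e
          refine Prod.ext e1.1 ?_
          exact T1_of_le F (show w j + X ≤ w (j + 1) + X by omega) (by omega)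
            (Prod.ext_iff.mp e1.2).2
        linarith
      have f3 : CH p (fun ω => Pool.WF.lc (q + w j + X) (cvc i0) (F.x1 (w j + X) ω))
          (fun ω => ((c (w j) q ω, F.T1 (w j + X) ω),
            (c (w (j + 1)) q ω, F.T1 (w (j + 1) + X) ω))) ≤ Real.log 7 := by
        have k1 := Pool.WF.row_shift (F := F) (p := p) hp (G := c (w j) q)
          (n := fun _ => cvc i0) (q := q) (w := w j) (X := X) (R₁ := w j + X)
          (R₂ := w (j + 1)) (R := w (j + 1)) le_rfl h2 h2 le_rfl (by omega)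
          (fun ω => ((c (w j) q ω, F.T1 (w j + X) ω),
            (c (w (j + 1)) q ω, F.T1 (w (j + 1) + X) ω)))
          (fun ω ω' hω hω' e => Prod.ext rfl (by
            have := h.vl (w j) q a1 a2 ω ω' hω hω' e
            show Pool.WF.lc q (cvc i0) (F.d ω) = Pool.WF.lc q (cvc i0) (F.d ω')
            rw [lc_cvc, lc_cvc]
            exact this))
          (fun ω ω' hω hω' e => by
            have e1 := Prod.ext_iff.mp e
            exact Prod.ext (Prod.ext_iff.mp e1.1).1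
              (h.tw (w (j + 1)) q b1 b2 ω ω' hω hω' (Prod.ext_iff.mp e1.2).1))
        have e7 : (2 : ℝ) * 3 + 1 = 7 := by norm_num
        rw [e7] at k1
        refine (CH_mono_cond h0 ?_).trans k1
        intro ω ω' hω hω' e
        refine Prod.ext ?_ e
        have e1 := (Prod.ext_iff.mp (Prod.ext_iff.mp e).2).1
        have e2 := h.ps (w (j + 1)) q b1 b2 (by omega) ω ω' hω hω' e1
        show Pool.WF.lc (q + w j + X) (cvc i0) (F.x1 (w (j + 1)) ω) =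
          Pool.WF.lc (q + w j + X) (cvc i0) (F.x1 (w (j + 1)) ω')
        rw [lc_cvc, lc_cvc]
        exact floor_down (by omega) e2
      linarith)
    (fun j _ => by
      refine (CH_eq_zero hp.nonneg ?_).le
      intro ω ω' _ _ e
      exact (Prod.ext_iff.mp e).1)
  have k2 : CH p (fun ω => Pool.WF.lc (q + X) (cvc i0) (F.d ω))
      (fun ω => (c (w 0) q ω, F.T1 (w 0 + X) ω)) ≤ X * Real.log 2 := by
    obtain ⟨a1, a2, a3⟩ := hS _ (g1 0)
    have k3 : CH p (fun ω => Pool.WF.lc (q + X) (cvc i0) (F.d ω))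
        (fun ω => (c (w 0) q ω, F.T1 (w 0 + X) ω)) ≤
        CH p (fun ω => Pool.WF.lc (q + X) (cvc i0) (F.d ω))
          (fun ω => Pool.WF.lc q (cvc i0) (F.d ω)) := by
      refine CH_mono_cond h0 ?_
      intro ω ω' hω hω' e
      have := h.vl (w 0) q a1 a2 ω ω' hω hω' (Prod.ext_iff.mp e).1
      show Pool.WF.lc q (cvc i0) (F.d ω) = Pool.WF.lc q (cvc i0) (F.d ω')
      rw [lc_cvc, lc_cvc]
      exact this
    refine k3.trans ?_
    refine (CH_le_card h0 hp.sum_one _ _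
      (fun v => Finset.Ico (2 ^ X * v) (2 ^ X * v + 2 ^ X)) ?_).trans ?_
    · intro ω _
      obtain ⟨c1, c2⟩ := Pool.WF.lc_mem (n := cvc i0) (x := F.d ω) (k := q) (X := X)
      rw [Finset.mem_Ico]
      constructor <;> linarith
    · refine le_of_eq ?_
      have : ∀ v : ℤ, ((Finset.Ico (2 ^ X * v) (2 ^ X * v + 2 ^ X)).card : ℝ) = 2 ^ X := by
        intro v
        rw [Int.card_Ico, add_sub_cancel_left]
        norm_cast
      simp only [this]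
      rw [Ex_const hp.sum_one, Real.log_pow]
  have e1 : ∀ j, rb F p i0 X c (w j) q = dp p (fun ω => Pool.WF.lc (q + X) (cvc i0) (F.d ω))
      (fun ω => Pool.WF.lc (q + w j + X) (cvc i0) (F.x1 (w j + X) ω))
      (fun ω => (c (w j) q ω, F.T1 (w j + X) ω)) := fun j => dp_symm h0 _ _ _
  simp only [e1]
  refine key.trans ?_
  have : (0 : ℝ) ≤ S.card := Nat.cast_nonneg _
  nlinarith

/-- Few pairs have a large dependence of the time on the line. -/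
theorem card_ra (hp : IsLaw p) (h : Rcx F p i0 wa wb c K) (hX : 0 < X) {ι : ℝ} {qa qb : ℕ}
    (B : Finset (ℕ × ℕ)) (hB : B ⊆ Finset.Icc wa wb ×ˢ Finset.Ico qa qb)
    (hbad : ∀ x ∈ B, x.2 + (x.1 + X) ≤ J ∧ ι * X ≤ ra F p i0 X c x.1 x.2) :
    B.card * (ι * X) ≤ (wb + 1 - wa : ℕ) * (X * (X * Real.log 2)) := by
  classical
  have hu : 0 ≤ Real.log 2 := Real.log_nonneg (by norm_num)
  obtain ⟨R, hR⟩ : ∃ R, R = (Finset.Icc wa wb ×ˢ Finset.Ico qa qb).filter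
    (fun x => x.2 + (x.1 + X) ≤ J) := ⟨_, rfl⟩
  refine card_big R (fun x => ra F p i0 X c x.1 x.2) (fun x _ => ra_nonneg hp _ _) ?_ B ?_
    (fun x hx => (hbad x hx).2)
  · rw [hR, Finset.sum_filter, Finset.sum_product]
    have key : ∀ w ∈ Finset.Icc wa wb, (∑ q ∈ Finset.Ico qa qb,
        if q + (w + X) ≤ J then ra F p i0 X c w q else 0) ≤ X * (X * Real.log 2) := by
      intro w hw
      obtain ⟨h1, h2⟩ := Finset.mem_Icc.1 hw
      rw [← Finset.sum_filter]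
      have k1 := H23.sum_class (fun q => ra F p i0 X c w q)
        ((Finset.Ico qa qb).filter fun q => q + (w + X) ≤ J) X hX
        (B := X * Real.log 2) (C := 0) (by positivity) (by
          intro S' hS' hne hsep
          exact ra_sep hp h h1 h2 S' (fun q hq => (Finset.mem_filter.1 (hS' hq)).2) hne hsep)
      rw [zero_mul, add_zero] at k1
      exact k1
    refine (Finset.sum_le_sum key).trans ?_
    rw [Finset.sum_const, nsmul_eq_mul, Nat.card_Icc]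
  · intro x hx
    rw [hR, Finset.mem_filter]
    exact ⟨hB hx, (hbad x hx).1⟩

/-- Few pairs have a large dependence of the row on the velocity. -/
theorem card_rb (hp : IsLaw p) (h : Rcx F p i0 wa wb c K) (hK : 0 ≤ K) (hX : 0 < X) {ι : ℝ}
    {qa qb : ℕ}
    (B : Finset (ℕ × ℕ)) (hB : B ⊆ Finset.Icc wa wb ×ˢ Finset.Ico qa qb)
    (hbad : ∀ x ∈ B, x.2 + (x.1 + X) ≤ J ∧ ι * X ≤ rb F p i0 X c x.1 x.2) :
    B.card * (ι * X) ≤ (qb - qa : ℕ) * (X * (X * Real.log 2) +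
      (K + Real.log 7) * (wb + 1 - wa : ℕ)) := by
  classical
  have hu : 0 ≤ Real.log 2 := Real.log_nonneg (by norm_num)
  have hl7 : 0 ≤ Real.log 7 := Real.log_nonneg (by norm_num)
  obtain ⟨R, hR⟩ : ∃ R, R = (Finset.Icc wa wb ×ˢ Finset.Ico qa qb).filter
    (fun x => x.2 + (x.1 + X) ≤ J) := ⟨_, rfl⟩
  refine card_big R (fun x => rb F p i0 X c x.1 x.2) (fun x _ => rb_nonneg hp _ _) ?_ B ?_
    (fun x hx => (hbad x hx).2)
  · rw [hR, Finset.sum_filter, Finset.sum_product_right]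
    have key : ∀ q ∈ Finset.Ico qa qb, (∑ w ∈ Finset.Icc wa wb,
        if q + (w + X) ≤ J then rb F p i0 X c w q else 0) ≤ X * (X * Real.log 2) +
          (K + Real.log 7) * (wb + 1 - wa : ℕ) := by
      intro q hq
      rw [← Finset.sum_filter]
      have k1 := H23.sum_class (fun w => rb F p i0 X c w q)
        ((Finset.Icc wa wb).filter fun w => q + (w + X) ≤ J) X hX
        (B := X * Real.log 2) (C := K + Real.log 7) (by positivity) (by
          intro S' hS' hne hsep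
          exact rb_sep hp h hK q S' (fun w hw => by
            have h3 := Finset.mem_filter.1 (hS' hw)
            have h4 := Finset.mem_Icc.1 h3.1
            exact ⟨h4.1, h4.2, h3.2⟩) hne hsep)
      refine k1.trans ?_
      have k2 : (((Finset.Icc wa wb).filter fun w => q + (w + X) ≤ J).card : ℝ) ≤
          (wb + 1 - wa : ℕ) := by
        have := Finset.card_filter_le (Finset.Icc wa wb) fun w => q + (w + X) ≤ J
        rw [Nat.card_Icc] at this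
        exact_mod_cast this
      have := mul_le_mul_of_nonneg_left k2 (show 0 ≤ K + Real.log 7 by positivity)
      linarith
    refine (Finset.sum_le_sum key).trans ?_
    rw [Finset.sum_const, nsmul_eq_mul, Nat.card_Ico]
  · intro x hx
    rw [hR, Finset.mem_filter]
    exact ⟨hB hx, (hbad x hx).1⟩

end rect

/-- The near samples of the windows `v ∈ [w, w + X)`. -/
theorem sum_dn_le {F : Fam m J} {p : F.Ω → ℝ} (hp : IsLaw p) {w X k' : ℕ} (hJ : w + X ≤ J)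
    {e : ℝ} (h : ∑ i ∈ Finset.range X, nr p (slam F w) (F.wt w) k' i ≤ e) :
    ∑ v ∈ (Finset.Ico w (w + X)).filter (fun v => v + k' ≤ w + X), Pool.WF.dn F p k' v ≤ e := by
  refine le_trans ?_ h
  rw [Finset.sum_filter, Finset.sum_Ico_eq_sum_range, Nat.add_sub_cancel_left]
  refine Finset.sum_le_sum fun i hi => ?_
  split_ifs with h1
  · rw [nr_slam F hp.nonneg (show w + i + k' ≤ J by omega)]
    unfold Pool.WF.dn
    refine Pr_mono' (fun x => glue_nonneg hp.nonneg hp.nonneg x) fun x _ hE => ?_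
    have h2 : |(F.T x.2 : ℝ) - F.T x.1| < (2 : ℝ) ^ (J - (w + i + k')) := hE
    show |(F.T x.1 : ℝ) - F.T x.2| < (2 : ℝ) ^ (J - (w + i + k'))
    rw [abs_sub_comm]
    exact h2
  · exact nr_nonneg hp.nonneg _ _ _ _

/-- **Full rows of one coordinate on a rectangle of contexts**: the exceptional set depends on the
dependences only; the hypotheses on the times and on the velocity are asked at the pair. -/
theorem row1 : ∀ ε ca ρ : ℝ, 0 < ε → 0 < ca → 0 < ρ →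
    ∃ ϖ κ₀ εN : ℝ, 0 < ϖ ∧ ϖ ≤ 1 ∧ 0 < κ₀ ∧ κ₀ ≤ 1 ∧ 0 < εN ∧ ∀ (k' : ℕ) (K : ℝ), 0 ≤ K →
    ∃ (γ : ℝ) (X₀ : ℕ), 0 < γ ∧ γ ≤ 1 ∧ 1 ≤ X₀ ∧
    ∀ {m J : ℕ} (F : Fam m J) (p : F.Ω → ℝ) (i0 : Fin m) (wa wb qa qb X : ℕ) {Γ : Type}
      (c : ℕ → ℕ → F.Ω → Γ), IsLaw p → Rcx F p i0 wa wb c K → X₀ ≤ X →
      (X : ℝ) ≤ γ * (wb + 1 - wa : ℕ) → (X : ℝ) ≤ γ * (qb - qa : ℕ) →
      ∃ B : Finset (ℕ × ℕ), B ⊆ Finset.Icc wa wb ×ˢ Finset.Ico qa qb ∧
        (B.card : ℝ) ≤ ρ * ((wb + 1 - wa : ℕ) * (qb - qa : ℕ)) ∧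
        ∀ w q, wa ≤ w → w ≤ wb → qa ≤ q → q < qb → (w, q) ∉ B →
          w + X ≤ wb ∧ (q + (w + X) ≤ J →
            ∑ i ∈ Finset.range X, nr p (slam F w) (F.wt w) k' i ≤ εN * X →
            (∀ X' : ℕ, κ₀ * X ≤ X' → X' ≤ X → ∀ E : F.Ω → Prop, ϖ ≤ Pe p E →
              ca * X' * Real.log 2 ≤ CH (Pool.Agent.H49.Ent.cond p E True)
                (fun ω => ⌊(2 : ℝ) ^ (q + X') * F.d ω i0⌋) (c w q)) →
            X * Real.log 2 - ε * X * Real.log 2 ≤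
              CH p (bps F (w + X) (q + (w + X)) i0)
                (fun ω => (F.T1 (w + X) ω, c w q ω))) := by
  classical
  intro ε ca ρ hε hca hρ
  obtain ⟨κ, hκe⟩ : ∃ κ, κ = min 1 (ε / 16) := ⟨_, rfl⟩
  have hκ : 0 < κ := by rw [hκe]; exact lt_min one_pos (by positivity)
  have hκ1 : κ ≤ 1 := by rw [hκe]; exact min_le_left _ _
  have hκ2 : 8 * κ ≤ ε / 2 := by
    have : κ ≤ ε / 16 := by rw [hκe]; exact min_le_right _ _
    linarith
  obtain ⟨ϖ₀, hϖ₀, hB⟩ := Pool.WF.w_fam (ε / 2) ca κ (by positivity) hca hκ hκ1 hκ2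
  refine ⟨min ϖ₀ 1, κ / 2, ε / 6, lt_min hϖ₀ one_pos, min_le_right _ _, by positivity,
    by linarith, by positivity, ?_⟩
  intro k' K hK
  obtain ⟨ι, X₁, hι, hB⟩ := hB k'
  obtain ⟨u, hu⟩ : ∃ u, u = Real.log 2 := ⟨_, rfl⟩
  have hu0 : 0 < u := by rw [hu]; exact Real.log_pos (by norm_num)
  have hl7 : 0 ≤ Real.log 7 := Real.log_nonneg (by norm_num)
  obtain ⟨γ, hγ⟩ : ∃ γ, γ = min 1 (min (ρ / 4) (ρ * ι / (4 * u))) := ⟨_, rfl⟩
  have hγ0 : 0 < γ := by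
    rw [hγ]
    exact lt_min one_pos (lt_min (by positivity) (by positivity))
  have hγ1 : γ ≤ 1 := by rw [hγ]; exact min_le_left _ _
  have hγ2 : γ ≤ ρ / 4 := by rw [hγ]; exact (min_le_right _ _).trans (min_le_left _ _)
  have hγ3 : γ * u ≤ ρ / 4 * ι := by
    have h1 : γ ≤ ρ * ι / (4 * u) := by
      rw [hγ]
      exact (min_le_right _ _).trans (min_le_right _ _)
    rw [le_div_iff₀ (by positivity)] at h1
    linarith
  obtain ⟨N₁, hN₁⟩ := exists_nat_ge ((K + Real.log 7) / (ρ / 4 * ι))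
  obtain ⟨N₂, hN₂⟩ := exists_nat_ge (2 / κ)
  refine ⟨γ, max X₁ (N₁ + N₂ + 1), hγ0, hγ1, by
    have := le_max_right X₁ (N₁ + N₂ + 1)
    omega, ?_⟩
  intro m J F p i0 wa wb qa qb X Γ c hp hR hX hXW hXQ
  have hX1 : X₁ ≤ X := (le_max_left _ _).trans hX
  have hX2 : N₁ + N₂ + 1 ≤ X := (le_max_right _ _).trans hX
  have hX0 : 0 < X := by omega
  have hXr : (0 : ℝ) < X := by exact_mod_cast hX0
  have hK1 : K + Real.log 7 ≤ ρ / 4 * ι * X := by
    have h1 : (N₁ : ℝ) ≤ X := by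
      have : N₁ ≤ X := by omega
      exact_mod_cast this
    have h2 := hN₁.trans h1
    rw [div_le_iff₀ (by positivity)] at h2
    linarith
  have hκX : 2 ≤ κ * X := by
    have h1 : (N₂ : ℝ) ≤ X := by
      have : N₂ ≤ X := by omega
      exact_mod_cast this
    have h2 := hN₂.trans h1
    rw [div_le_iff₀ hκ] at h2
    linarith
  obtain ⟨W, hW⟩ : ∃ W : ℝ, W = (wb + 1 - wa : ℕ) := ⟨_, rfl⟩
  obtain ⟨Q, hQ⟩ : ∃ Q : ℝ, Q = (qb - qa : ℕ) := ⟨_, rfl⟩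
  have hW0 : 0 ≤ W := by rw [hW]; exact Nat.cast_nonneg _
  have hQ0 : 0 ≤ Q := by rw [hQ]; exact Nat.cast_nonneg _
  rw [← hW] at hXW
  rw [← hQ] at hXQ
  -- the exceptional pairs
  obtain ⟨A, hA⟩ : ∃ A, A = Finset.Icc wa wb ×ˢ Finset.Ico qa qb := ⟨_, rfl⟩
  obtain ⟨B₀, hB₀⟩ : ∃ B₀, B₀ = A.filter (fun x => wb < x.1 + X) := ⟨_, rfl⟩
  obtain ⟨B₁, hB₁⟩ : ∃ B₁, B₁ = A.filter (fun x => x.2 + (x.1 + X) ≤ J ∧
    ι * X ≤ ra F p i0 X c x.1 x.2) := ⟨_, rfl⟩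
  obtain ⟨B₂, hB₂⟩ : ∃ B₂, B₂ = A.filter (fun x => x.2 + (x.1 + X) ≤ J ∧
    ι * X ≤ rb F p i0 X c x.1 x.2) := ⟨_, rfl⟩
  have c0 : (B₀.card : ℝ) ≤ ρ / 4 * (W * Q) := by
    have h1 : B₀.card ≤ X * (qb - qa) := by
      have h5 : B₀ ⊆ Finset.Ico (wb + 1 - X) (wb + 1) ×ˢ Finset.Ico qa qb := by
        intro x hx
        rw [hB₀, hA, Finset.mem_filter, Finset.mem_product, Finset.mem_Icc] at hx
        exact Finset.mem_product.2 ⟨Finset.mem_Ico.2 ⟨by omega, by omega⟩, hx.1.2⟩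
      refine (Finset.card_le_card h5).trans ?_
      rw [Finset.card_product, Nat.card_Ico, Nat.card_Ico]
      exact Nat.mul_le_mul_right _ (by omega)
    have h2 : (B₀.card : ℝ) ≤ X * Q := by
      rw [hQ]
      exact_mod_cast h1
    have h3 : (X : ℝ) * Q ≤ γ * W * Q := mul_le_mul_of_nonneg_right hXW hQ0
    have h4 : γ * (W * Q) ≤ ρ / 4 * (W * Q) :=
      mul_le_mul_of_nonneg_right hγ2 (mul_nonneg hW0 hQ0)
    linarith
  have hWQ : 0 ≤ W * Q := mul_nonneg hW0 hQ0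
  have c1 : (B₁.card : ℝ) ≤ ρ / 4 * (W * Q) := by
    have h1 := card_ra (ι := ι) (qa := qa) (qb := qb) hp hR hX0 B₁
      (by rw [hB₁, ← hA]; exact Finset.filter_subset _ _)
      (fun x hx => by rw [hB₁] at hx; exact (Finset.mem_filter.1 hx).2)
    rw [← hW, ← hu] at h1
    have h2 : W * (X * (X * u)) ≤ ρ / 4 * (W * Q) * (ι * X) := by
      have h3 : W * (X * (X * u)) ≤ W * (X * (γ * Q * u)) := by
        refine mul_le_mul_of_nonneg_left (mul_le_mul_of_nonneg_left ?_ hXr.le) hW0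
        exact mul_le_mul_of_nonneg_right hXQ hu0.le
      have h4 : (γ * u) * (W * Q * X) ≤ ρ / 4 * ι * (W * Q * X) :=
        mul_le_mul_of_nonneg_right hγ3 (mul_nonneg hWQ hXr.le)
      linarith
    exact le_of_mul_le_mul_right (h1.trans h2) (mul_pos hι hXr)
  have c2 : (B₂.card : ℝ) ≤ ρ / 2 * (W * Q) := by
    have h1 := card_rb (ι := ι) (qa := qa) (qb := qb) hp hR hK hX0 B₂
      (by rw [hB₂, ← hA]; exact Finset.filter_subset _ _)
      (fun x hx => by rw [hB₂] at hx; exact (Finset.mem_filter.1 hx).2)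
    rw [← hW, ← hQ, ← hu] at h1
    have h2 : Q * (X * (X * u) + (K + Real.log 7) * W) ≤ ρ / 2 * (W * Q) * (ι * X) := by
      have h3 : Q * (X * (X * u)) ≤ Q * (X * (γ * W * u)) := by
        refine mul_le_mul_of_nonneg_left (mul_le_mul_of_nonneg_left ?_ hXr.le) hQ0
        exact mul_le_mul_of_nonneg_right hXW hu0.le
      have h4 : (γ * u) * (W * Q * X) ≤ ρ / 4 * ι * (W * Q * X) :=
        mul_le_mul_of_nonneg_right hγ3 (mul_nonneg hWQ hXr.le)
      have h5 : Q * ((K + Real.log 7) * W) ≤ ρ / 4 * ι * X * (W * Q) := by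
        have := mul_le_mul_of_nonneg_right hK1 hWQ
        linarith
      linarith
    exact le_of_mul_le_mul_right (h1.trans h2) (mul_pos hι hXr)
  refine ⟨B₀ ∪ (B₁ ∪ B₂), ?_, ?_, ?_⟩
  · rw [← hA]
    refine Finset.union_subset ?_ (Finset.union_subset ?_ ?_)
    · rw [hB₀]
      exact Finset.filter_subset _ _
    · rw [hB₁]
      exact Finset.filter_subset _ _
    · rw [hB₂]
      exact Finset.filter_subset _ _
  · have h1 : (B₀ ∪ (B₁ ∪ B₂)).card ≤ B₀.card + (B₁.card + B₂.card) :=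
      (Finset.card_union_le _ _).trans (Nat.add_le_add_left (Finset.card_union_le _ _) _)
    have h2 : ((B₀ ∪ (B₁ ∪ B₂)).card : ℝ) ≤ B₀.card + (B₁.card + B₂.card) := by
      exact_mod_cast h1
    rw [← hW, ← hQ]
    linarith
  intro w q h1 h2 h3 h4 hwq
  have n0 : (w, q) ∉ B₀ := fun h => hwq (Finset.mem_union_left _ h)
  have n1 : (w, q) ∉ B₁ := fun h =>
    hwq (Finset.mem_union_right _ (Finset.mem_union_left _ h))
  have n2 : (w, q) ∉ B₂ := fun h =>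
    hwq (Finset.mem_union_right _ (Finset.mem_union_right _ h))
  have hmem : (w, q) ∈ A := by
    rw [hA]
    exact Finset.mem_product.2 ⟨Finset.mem_Icc.2 ⟨h1, h2⟩, Finset.mem_Ico.2 ⟨h3, h4⟩⟩
  have hwX : w + X ≤ wb := by
    by_contra hcon
    refine n0 ?_
    rw [hB₀, Finset.mem_filter]
    exact ⟨hmem, not_le.1 hcon⟩
  refine ⟨hwX, ?_⟩
  intro hJ htim hact
  have ga : ra F p i0 X c w q ≤ ι * X := by
    by_contra hcon
    refine n1 ?_
    rw [hB₁, Finset.mem_filter]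
    exact ⟨hmem, hJ, (not_le.1 hcon).le⟩
  have gb : rb F p i0 X c w q ≤ ι * X := by
    by_contra hcon
    refine n2 ?_
    rw [hB₂, Finset.mem_filter]
    exact ⟨hmem, hJ, (not_le.1 hcon).le⟩
  have key := hB m J F p Γ (c w q) (fun _ => cvc i0) w q X (w + X) (ε / 6) hp le_rfl (by omega)
    hX1
    (fun ω ω' hω hω' e => by
      have e1 := hR.tw w q h1 h2 ω ω' hω hω' e
      have e2 := hR.ps w q h1 h2 (by omega) ω ω' hω hω' e
      have e3 := hR.vl w q h1 h2 ω ω' hω hω' e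
      refine Prod.ext (Prod.ext e1 rfl) (Prod.ext ?_ ?_)
      · show Pool.WF.lc (q + w) (cvc i0) (F.x1 w ω) = Pool.WF.lc (q + w) (cvc i0) (F.x1 w ω')
        rw [lc_cvc, lc_cvc]
        exact e2
      · show Pool.WF.lc q (cvc i0) (F.d ω) = Pool.WF.lc q (cvc i0) (F.d ω')
        rw [lc_cvc, lc_cvc]
        exact e3)
    (hR.det w q h1 h2) ga gb (sum_dn_le hp (by omega) htim)
    (by
      intro E hE
      have hfl : ⌊κ * X⌋₊ ≤ X := Nat.floor_le_of_le (mul_le_of_le_one_left hXr.le hκ1)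
      have hfl2 : κ / 2 * X ≤ (⌊κ * X⌋₊ : ℝ) := by
        have h5 := Nat.lt_floor_add_one (κ * X)
        linarith
      have h6 := hact ⌊κ * X⌋₊ hfl2 hfl E ((min_le_left _ _).trans hE)
      simp only [lc_cvc]
      exact h6)
  have e1 : (1 - ε / 2 - 3 * (ε / 6)) * (X : ℝ) * Real.log 2 =
      X * Real.log 2 - ε * X * Real.log 2 := by ring
  rw [e1] at key
  refine key.trans (le_of_eq ?_)
  refine CH_congr hp.nonneg ?_ ?_ ?_ ?_
  · intro ω ω' _ _ e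
    have e2 : Pool.WF.lc (q + w + X) (cvc i0) (F.x1 (w + X) ω) =
      Pool.WF.lc (q + w + X) (cvc i0) (F.x1 (w + X) ω') := (Prod.ext_iff.mp e).1
    rw [lc_cvc, lc_cvc, Nat.add_assoc] at e2
    exact e2
  · intro ω ω' _ _ e
    have e2 : bps F (w + X) (q + (w + X)) i0 ω = bps F (w + X) (q + (w + X)) i0 ω' :=
      (Prod.ext_iff.mp e).1
    show Pool.WF.lc (q + w + X) (cvc i0) (F.x1 (w + X) ω) =
      Pool.WF.lc (q + w + X) (cvc i0) (F.x1 (w + X) ω')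
    rw [lc_cvc, lc_cvc, Nat.add_assoc]
    exact e2
  · intro ω ω' _ _ e
    have e2 := Prod.ext_iff.mp e
    exact Prod.ext e2.2 e2.1
  · intro ω ω' _ _ e
    have e2 := Prod.ext_iff.mp e
    exact Prod.ext e2.2 e2.1

/-! ### The truncated contexts -/

/-- The constant of nested truncated contexts. -/
noncomputable def cK (m : ℕ) (C₀ : ℝ) : ℝ :=
  m * Real.log (4 * (2 * C₀ + 1) + 3) + 2 * (m * Real.log (4 * m * (2 * C₀ + 1) + 3))

theorem cK_nonneg (m : ℕ) {C₀ : ℝ} (h : 0 ≤ C₀) : 0 ≤ cK m C₀ := by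
  have h1 : 0 ≤ Real.log (4 * (2 * C₀ + 1) + 3) := Real.log_nonneg (by linarith)
  have h2 : 0 ≤ Real.log (4 * m * (2 * C₀ + 1) + 3) := by
    refine Real.log_nonneg ?_
    have : 0 ≤ 4 * (m : ℝ) * (2 * C₀ + 1) := by positivity
    linarith
  unfold cK
  positivity

/-- The truncated context knows the cell of the base position. -/
theorem ctt_bps {F : Fam m J} {p : F.Ω → ℝ} {w q l : ℕ} {i0 : Fin m} {z : F.Ω → Fin m → ℝ}
    (h : q + w ≤ J) : Det p (F.ctt w q l i0 z) (bps F w (q + w) i0) := by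
  intro ω ω' _ _ e
  obtain ⟨-, -, a3, -, -⟩ := Box.mlb_ext (show F.mlb w (fun i => min (qcv q l i0 i + w) J)
    (qcv q l i0) (fun ω => zfr i0 (z ω)) ω = F.mlb w (fun i => min (qcv q l i0 i + w) J)
    (qcv q l i0) (fun ω => zfr i0 (z ω)) ω' from e)
  have g6 : ⌊(2 : ℝ) ^ min (qcv q l i0 i0 + w) J * mco (zfr i0 (z ω)) (F.x1 w ω) i0⌋ =
    ⌊(2 : ℝ) ^ min (qcv q l i0 i0 + w) J * mco (zfr i0 (z ω')) (F.x1 w ω') i0⌋ := congrFun a3 i0
  have g7 : min (qcv q l i0 i0 + w) J = q + w := by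
    unfold qcv
    rw [if_pos rfl]
    exact min_eq_left h
  rw [g7, zfr_i0, zfr_i0] at g6
  exact g6

/-- The truncated context knows the cell of the base velocity. -/
theorem ctt_vel {F : Fam m J} {p : F.Ω → ℝ} {w q l : ℕ} {i0 : Fin m} {z : F.Ω → Fin m → ℝ} :
    Det p (F.ctt w q l i0 z) (fun ω => ⌊(2 : ℝ) ^ q * F.d ω i0⌋) := by
  intro ω ω' _ _ e
  obtain ⟨-, -, -, a4, -⟩ := Box.mlb_ext (show F.mlb w (fun i => min (qcv q l i0 i + w) J)
    (qcv q l i0) (fun ω => zfr i0 (z ω)) ω = F.mlb w (fun i => min (qcv q l i0 i + w) J)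
    (qcv q l i0) (fun ω => zfr i0 (z ω)) ω' from e)
  have g6 : ⌊(2 : ℝ) ^ (qcv q l i0 i0) * mco (zfr i0 (z ω)) (F.d ω) i0⌋ =
    ⌊(2 : ℝ) ^ (qcv q l i0 i0) * mco (zfr i0 (z ω')) (F.d ω') i0⌋ := congrFun a4 i0
  have g7 : qcv q l i0 i0 = q := by
    unfold qcv
    rw [if_pos rfl]
  rw [g7, zfr_i0, zfr_i0] at g6
  exact g6

/-- **The truncated contexts** with the frames `z w` of precision `vp w`; `al` is the own frame. -/
theorem rcx_ctt {F : Fam m J} {p : F.Ω → ℝ} (hp : IsLaw p) {i0 : Fin m} {wa wb : ℕ} {vp : ℕ → ℕ}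
    {z : ℕ → F.Ω → Fin m → ℝ} {al : F.Ω → Fin m → ℝ} {C₀ : ℝ} (hC₀ : 0 ≤ C₀) (hwJ : wb ≤ J)
    (hmono : ∀ w w', wa ≤ w → w ≤ w' → w' ≤ wb → vp w ≤ vp w')
    (hgr : ∀ w, wa ≤ w → w ≤ wb → ∀ ω i, ∃ k : ℤ, z w ω i = k / 2 ^ vp w)
    (hdet : ∀ w, wa ≤ w → w ≤ wb → Det p (slam F w) (z w))
    (hnear : ∀ w, wa ≤ w → w ≤ wb → ∀ ω, 0 < p ω → ∀ k, k ≠ i0 →
      |al ω k - z w ω k| ≤ C₀ / 2 ^ vp w) :
    Rcx F p i0 wa wb (fun w q => F.ctt w q (vp w) i0 (z w)) (cK m C₀) where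
  tw := fun w q h1 h2 => ctt_T1 le_rfl (h2.trans hwJ)
  ps := fun w q h1 h2 h3 => ctt_bps h3
  vl := fun w q h1 h2 => ctt_vel
  det := fun w q h1 h2 => ctt_det (hdet w h1 h2)
  mq := fun w q q' h1 h2 h3 => ctt_mono h3
  mw := by
    intro w w' q h1 h2 h3
    refine ctt_coarse hp (h3.trans hwJ) (by linarith) h2 le_rfl (hmono w w' h1 h2 h3)
      (hgr w h1 (h2.trans h3)) ?_
    intro ω hω i hi
    have g1 := hnear w h1 (h2.trans h3) ω hω i hi
    have g2 := hnear w' (h1.trans h2) h3 ω hω i hi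
    have g4 : C₀ / (2 : ℝ) ^ vp w' ≤ C₀ / 2 ^ vp w := pw_mono (hmono w w' h1 h2 h3) hC₀
    have e : (2 * C₀ + 1) / (2 : ℝ) ^ vp w = C₀ / 2 ^ vp w + C₀ / 2 ^ vp w + 1 / 2 ^ vp w := by
      ring
    have g5 : (0 : ℝ) ≤ 1 / 2 ^ vp w := by positivity
    rw [e]
    rw [abs_le] at g1 g2 ⊢
    constructor <;> linarith [g1.1, g1.2, g2.1, g2.2]

/-- The activity in the boxes gives the activity in the truncated contexts. -/
theorem act_of_ha2 {F : Fam 2 J} {p : F.Ω → ℝ} (hp : ∀ ω, 0 ≤ p ω) {σ : Fin 2 → Fin 2}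
    (hσ : Function.Injective σ) {vp : ℕ → ℕ} {a : ℕ → F.Ω → ℝ} {z : ℕ → F.Ω → Fin 2 → ℝ}
    {w q X : ℕ} {ϖ κ₀ ca : ℝ} (hz : Zof σ (a w) (z w))
    (h : Pool.UEG.Ha2 F p σ vp a X ϖ κ₀ ca w q) :
    ∀ X' : ℕ, κ₀ * X ≤ X' → X' ≤ X → ∀ E : F.Ω → Prop, ϖ ≤ Pe p E →
      ca * X' * Real.log 2 ≤ CH (Pool.Agent.H49.Ent.cond p E True)
        (fun ω => ⌊(2 : ℝ) ^ (q + X') * F.d ω (σ 0)⌋) (F.ctt w q (vp w) (σ 0) (z w)) := by
  intro X' h1 h2 E hE
  have hE0 : ∀ ω, 0 ≤ Pool.Agent.H49.Ent.cond p E True ω := fun ω => cond_nonneg hp E True ω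
  have key := h 0 X' h1 (by omega) E hE
  rw [Nat.add_zero] at key
  obtain ⟨b, hb⟩ : ∃ b, b = F.blb w (Pool.UEG.cv2 (vp w) q) (Pool.UEG.frm2 σ (a w)) :=
    ⟨_, rfl⟩
  rw [← hb] at key
  have k1 : CH (Pool.Agent.H49.Ent.cond p E True)
      (Uni.dg X' (fun ω => F.md (Pool.UEG.cv2 (vp w) q) (Pool.UEG.frm2 σ (a w)) ω 0)) b ≤
      CH (Pool.Agent.H49.Ent.cond p E True)
        (fun ω => ⌊(2 : ℝ) ^ (q + X') * F.d ω (σ 0)⌋) b := by
    refine CH_mono_left hE0 ?_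
    intro ω ω' _ _ e
    have e1 : ⌊(2 : ℝ) ^ (q + X') * F.d ω (σ 0)⌋ = ⌊(2 : ℝ) ^ (q + X') * F.d ω' (σ 0)⌋ :=
      (Prod.ext_iff.mp e).1
    have e2 : ⌊(2 : ℝ) ^ q * F.d ω (σ 0)⌋ = ⌊(2 : ℝ) ^ q * F.d ω' (σ 0)⌋ :=
      floor_down (by omega) e1
    have e3 : ∀ o : F.Ω, Uni.dg X' (fun ω => F.md (Pool.UEG.cv2 (vp w) q)
        (Pool.UEG.frm2 σ (a w)) ω 0) o =
        ⌊(2 : ℝ) ^ (q + X') * F.d o (σ 0)⌋ - 2 ^ X' * ⌊(2 : ℝ) ^ q * F.d o (σ 0)⌋ := by
      intro o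
      have e4 : mco (Pool.UEG.frm2 σ (a w) o) (F.d o) 0 = F.d o (σ 0) :=
        Pool.UEG.mco2_0 σ (a w o) (F.d o)
      have e5 : F.md (Pool.UEG.cv2 (vp w) q) (Pool.UEG.frm2 σ (a w)) o 0 =
          (2 : ℝ) ^ q * F.d o (σ 0) - (⌊(2 : ℝ) ^ q * F.d o (σ 0)⌋ : ℝ) := by
        unfold Fam.md
        rw [e4]
        rfl
      show ⌊(2 : ℝ) ^ X' * F.md (Pool.UEG.cv2 (vp w) q) (Pool.UEG.frm2 σ (a w)) o 0⌋ = _
      rw [e5]
      have e6 : (2 : ℝ) ^ X' * ((2 : ℝ) ^ q * F.d o (σ 0) - (⌊(2 : ℝ) ^ q * F.d o (σ 0)⌋ : ℝ)) =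
          (2 : ℝ) ^ (q + X') * F.d o (σ 0) -
            ((2 ^ X' * ⌊(2 : ℝ) ^ q * F.d o (σ 0)⌋ : ℤ) : ℝ) := by
        push_cast
        ring
      rw [e6, Int.floor_sub_intCast]
    rw [e3, e3, e1, e2]
  have k2 : CH (Pool.Agent.H49.Ent.cond p E True)
      (fun ω => ⌊(2 : ℝ) ^ (q + X') * F.d ω (σ 0)⌋) b ≤
      CH (Pool.Agent.H49.Ent.cond p E True)
        (fun ω => ⌊(2 : ℝ) ^ (q + X') * F.d ω (σ 0)⌋) (F.ctt w q (vp w) (σ 0) (z w)) := by
    refine CH_mono_cond hE0 ?_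
    intro ω ω' _ _ e
    rw [hb] at e
    exact ctt_of_ctz ω ω' ((Stp.ctz_blb hσ hz ω ω').2 e)
  linarith

/-- **Full rows in a cell of windows** for helper92's frames. The time may be rounded to `R`
digits. -/
theorem row_cell : ∀ ε ca ρ : ℝ, 0 < ε → 0 < ca → 0 < ρ →
    ∃ ϖ κ₀ εN : ℝ, 0 < ϖ ∧ ϖ ≤ 1 ∧ 0 < κ₀ ∧ κ₀ ≤ 1 ∧ 0 < εN ∧ ∀ (k' : ℕ) (C₀ : ℝ), 0 ≤ C₀ →
    ∃ (γ : ℝ) (X₀ : ℕ), 0 < γ ∧ γ ≤ 1 ∧ 1 ≤ X₀ ∧
    ∀ {J : ℕ} (F : Fam 2 J) (i0 : Fin 2) (W₀ W₁ wa wb qa qb X : ℕ) (vp : ℕ → ℕ)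
      (z : ℕ → F.Ω → Fin 2 → ℝ) (al : F.Ω → Fin 2 → ℝ), Frs F i0 W₀ W₁ vp z al C₀ →
      W₀ ≤ wa → wb ≤ W₁ → X₀ ≤ X → (X : ℝ) ≤ γ * (wb - wa : ℕ) → (X : ℝ) ≤ γ * (qb - qa : ℕ) →
      ∃ B : Finset (ℕ × ℕ), B ⊆ Finset.Ico wa wb ×ˢ Finset.Ico qa qb ∧
        (B.card : ℝ) ≤ ρ * ((wb - wa : ℕ) * (qb - qa : ℕ)) ∧
        ∀ w q, wa ≤ w → w < wb → qa ≤ q → q < qb → (w, q) ∉ B →
          w + X ≤ wb ∧ (q + (w + X) ≤ J → ∀ R, w + X + k' ≤ R → R ≤ J →
            ∑ i ∈ Finset.range X, nr F.p (slam (F.cot R) w) ((F.cot R).wt w) k' i ≤ εN * X →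
            (∀ X' : ℕ, κ₀ * X ≤ X' → X' ≤ X → ∀ E : F.Ω → Prop, ϖ ≤ Pe F.p E →
              ca * X' * Real.log 2 ≤ CH (Pool.Agent.H49.Ent.cond F.p E True)
                (fun ω => ⌊(2 : ℝ) ^ (q + X') * F.d ω i0⌋) (F.ctt w q (vp w) i0 (z w))) →
            X * Real.log 2 - ε * X * Real.log 2 ≤
              CH F.p (bps F (w + X) (q + (w + X)) i0)
                (fun ω => (F.T1 (w + X) ω, F.ctt w q (vp w) i0 (z w) ω))) := by
  classical
  intro ε ca ρ hε hca hρ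
  obtain ⟨ϖ, κ₀, εN, h1, h2, h3, h4, h5, hB⟩ := row1 ε ca (ρ / 2) hε hca (by positivity)
  refine ⟨ϖ, κ₀, εN, h1, h2, h3, h4, h5, ?_⟩
  intro k' C₀ hC₀
  obtain ⟨γ, X₀, hγ, hγ1, hX₀, hB⟩ := hB (k' + 1) (cK 2 C₀) (cK_nonneg 2 hC₀)
  refine ⟨γ, X₀, hγ, hγ1, hX₀, ?_⟩
  intro J F i0 W₀ W₁ wa wb qa qb X vp z al hF hWa hWb hX hXW hXQ
  have hXr : (1 : ℝ) ≤ X := by exact_mod_cast hX₀.trans hX
  have hwab : 1 ≤ wb - wa := by
    by_contra hcon
    have : wb - wa = 0 := by omega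
    rw [this] at hXW
    push_cast at hXW
    linarith
  have hXW' : (X : ℝ) ≤ γ * (wb + 1 - wa : ℕ) := by
    refine hXW.trans (mul_le_mul_of_nonneg_left ?_ hγ.le)
    have : wb - wa ≤ wb + 1 - wa := by omega
    exact_mod_cast this
  obtain ⟨B, hB1, hB2, hB3⟩ := hB F F.p i0 wa wb qa qb X
    (fun w q => F.ctt w q (vp w) i0 (z w)) F.isLaw
    (rcx_ctt (al := al) F.isLaw hC₀ (hWb.trans hF.wJ)
      (fun w w' a b c => hF.mono w w' (hWa.trans a) b (c.trans hWb))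
      (fun w a b => hF.grid w (hWa.trans a) (b.trans hWb))
      (fun w a b => hF.det w (hWa.trans a) (b.trans hWb))
      (fun w a b => hF.near w (hWa.trans a) (b.trans hWb))) hX hXW' hXQ
  refine ⟨B.filter (fun x => x.1 < wb), ?_, ?_, ?_⟩
  · intro x hx
    rw [Finset.mem_filter] at hx
    have h6 := Finset.mem_product.1 (hB1 hx.1)
    exact Finset.mem_product.2 ⟨Finset.mem_Ico.2 ⟨(Finset.mem_Icc.1 h6.1).1, hx.2⟩, h6.2⟩
  · have h6 : ((B.filter (fun x => x.1 < wb)).card : ℝ) ≤ B.card := by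
      exact_mod_cast Finset.card_filter_le _ _
    refine h6.trans (hB2.trans ?_)
    have h7 : ((wb + 1 - wa : ℕ) : ℝ) ≤ 2 * (wb - wa : ℕ) := by
      have : wb + 1 - wa ≤ 2 * (wb - wa) := by omega
      exact_mod_cast this
    have hQ0 : (0 : ℝ) ≤ (qb - qa : ℕ) := Nat.cast_nonneg _
    have h8 := mul_le_mul_of_nonneg_right h7 hQ0
    have h9 := mul_le_mul_of_nonneg_left h8 (show 0 ≤ ρ / 2 by positivity)
    linarith
  · intro w q a1 a2 a3 a4 hwq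
    obtain ⟨b1, b2⟩ := hB3 w q a1 a2.le a3 a4 (fun hh => hwq (Finset.mem_filter.2 ⟨hh, a2⟩))
    refine ⟨b1, fun hJ R hR hRJ htim hact => b2 hJ ?_ hact⟩
    refine le_trans (Finset.sum_le_sum fun i hi => ?_) htim
    rw [Finset.mem_range] at hi
    have e1 : slam (F.cot R) w = slam F w := Cot.slam_fun F (by omega)
    rw [e1]
    exact Cot.le_nr F (by omega) hRJ F.isLaw.nonneg (slam F w)

end Pool.PC
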